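import Mathlib

/-!
# First passage percolation in a hostile environment: definitions

The model of the problem (FPP₁ started from the origin, FPP_λ started from activated seeds), in its
usual graphical construction: every vertex independently carries a seed with probability `μ`, and
every edge carries two independent exponential clocks, one for each type. When a type first
occupies an endpoint of an edge, it tries to occupy the other endpoint after the time shown by its
clock on that edge.
-/

open MeasureTheory ProbabilityTheory
open scoped ENNReal

namespace Pool.Agent.H97.HostileFPP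

/-- The two types of the process: `one` is FPP₁ (rate 1), `lam` is FPP_λ (rate λ). -/
inductive Kind : Type
  | one
  | lam

variable {V : Type}

/-- An environment: for each vertex, whether it carries a seed (`true`) or not, and for each type
and each unordered pair of vertices (the edges are the pairs of adjacent vertices) the clock of
that type on that pair. -/
abbrev Env (V : Type) : Type := (V → Bool) × (Kind × Sym2 V → ℝ)

/-- The clock of type `k` on the pair `e`. -/
def clock (ω : Env V) (k : Kind) (e : Sym2 V) : ℝ := ω.2 (k, e)

/-- The rates at which the two types spread: `1` for FPP₁ and `lam` for FPP_λ. -/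
def rate (lam : ℝ) : Kind → ℝ
  | Kind.one => 1
  | Kind.lam => lam

/-- The law of one seed: `true` with probability `μ`, `false` with probability `1 - μ`. -/
noncomputable def seedLaw (μ : ℝ) : Measure Bool :=
  ENNReal.ofReal μ • Measure.dirac true + ENNReal.ofReal (1 - μ) • Measure.dirac false

/-- The law of the environment: all seeds and all clocks are independent, each seed has law
`seedLaw μ`, each clock of FPP₁ is exponential of rate `1`, each clock of FPP_λ is exponential
of rate `lam`. -/
noncomputable def envLaw (V : Type) (lam μ : ℝ) : Measure (Env V) :=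
  (Measure.infinitePi fun _ : V => seedLaw μ).prod
    (Measure.infinitePi fun q : Kind × Sym2 V => expMeasure (rate lam q.1))

/-- `(T, κ)` is an evolution of the process on `G` started from `o` in the environment `ω`:
`T v` is the time at which `v` becomes occupied (`∞` if this never happens) and `κ v` is the type
that occupies it (irrelevant if `T v = ∞`). The origin is occupied by FPP₁ at time `0`. If `w` is
occupied at time `T w` by the type `κ w`, then that type tries to occupy a neighbour `v` at time
`T w + clock ω (κ w) s(w, v)`. A vertex `v ≠ o` becomes occupied at the time of the first such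
attempt; it is then occupied by FPP_λ if it carries a seed, and by the type that makes the attempt
if it carries no seed. -/
structure IsEvolution (G : SimpleGraph V) (o : V) (ω : Env V) (T : V → ℝ≥0∞) (κ : V → Kind) :
    Prop where
  time_origin : T o = 0
  kind_origin : κ o = Kind.one
  time_le : ∀ v w, v ≠ o → G.Adj w v → T v ≤ T w + ENNReal.ofReal (clock ω (κ w) s(w, v))
  exists_attempt : ∀ v, v ≠ o → T v ≠ ∞ → ∃ w, G.Adj w v ∧
    T v = T w + ENNReal.ofReal (clock ω (κ w) s(w, v)) ∧
    κ v = if ω.1 v = true then Kind.lam else κ w

/-- The type `k` survives: the set of vertices that it eventually occupies contains an infinite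
connected subset. -/
def Survives (G : SimpleGraph V) (T : V → ℝ≥0∞) (κ : V → Kind) (k : Kind) : Prop :=
  ∃ A : Set V, A.Infinite ∧ (G.induce A).Connected ∧ ∀ v ∈ A, T v ≠ ∞ ∧ κ v = k

/-- The process on `G` started from `o` is in the strong survival regime at `(lam, μ)`: with
positive probability FPP₁ survives and FPP_λ dies out. -/
def StrongSurvivalAt (G : SimpleGraph V) (o : V) (lam μ : ℝ) : Prop :=
  0 < envLaw V lam μ {ω | ∃ T κ, IsEvolution G o ω T κ ∧
    Survives G T κ Kind.one ∧ ¬ Survives G T κ Kind.lam}

/-- `G` (with origin `o`) has a regime of strong survival. -/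
def HasStrongSurvivalRegime (G : SimpleGraph V) (o : V) : Prop :=
  ∃ lam μ : ℝ, 0 < lam ∧ 0 < μ ∧ μ < 1 ∧ StrongSurvivalAt G o lam μ

/-- Polynomial growth: the ball of radius `n` about `o` has at most `C * n ^ D` vertices, for some
constants `C`, `D` and all `n ≥ 1`. -/
def PolynomialGrowth (G : SimpleGraph V) (o : V) : Prop :=
  ∃ C D : ℝ, ∀ n : ℕ, 1 ≤ n →
    {v | G.Reachable o v ∧ G.dist o v ≤ n}.Finite ∧
      ({v | G.Reachable o v ∧ G.dist o v ≤ n}.ncard : ℝ) ≤ C * (n : ℝ) ^ D

/-- The (inner) boundary of a set of vertices `S`: the vertices of `S` with a neighbour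
outside `S`. -/
def innerBoundary (G : SimpleGraph V) (S : Set V) : Set V :=
  {v | v ∈ S ∧ ∃ w, G.Adj v w ∧ w ∉ S}

/-- The `d`-dimensional isoperimetric inequality: `|∂S| ≥ c |S| ^ ((d - 1) / d)` for some `c > 0`
and all finite nonempty `S`. -/
def IsoperimetricInequality (G : SimpleGraph V) (d : ℝ) : Prop :=
  ∃ c : ℝ, 0 < c ∧ ∀ S : Finset V, S.Nonempty →
    c * (S.card : ℝ) ^ ((d - 1) / d) ≤ ((innerBoundary G S).ncard : ℝ)

/-- The isoperimetric dimension: the supremum of the `d > 0` for which the `d`-dimensional
isoperimetric inequality holds. -/
noncomputable def isoDim (G : SimpleGraph V) : ℝ≥0∞ :=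
  ⨆ d : {d : ℝ // 0 < d ∧ IsoperimetricInequality G d}, ENNReal.ofReal d.1

/-- `G` is one-ended: after deleting any finite set `K` of vertices, all but finitely many of the
vertices lie in one connected component. -/
def OneEnded (G : SimpleGraph V) : Prop :=
  ∀ K : Finset V, ∃ u : {v // v ∉ K},
    {v : {v // v ∉ K} | ¬ (G.induce {v | v ∉ K}).Reachable u v}.Finite

end Pool.Agent.H97.HostileFPP
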