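import Pool.Agent.H97.HostileFPP.Defs

/-!
# Deterministic facts about evolutions: ancestral lines
-/

open scoped ENNReal
open SimpleGraph

namespace Pool.Agent.H97.HostileFPP

variable {V : Type} {G : SimpleGraph V} {o : V} {ω : Env V} {T : V → ℝ≥0∞} {κ : V → Kind}

/-- The smaller of the two clocks on a pair. -/
noncomputable def minClock (ω : Env V) (e : Sym2 V) : ℝ :=
  min (clock ω Kind.one e) (clock ω Kind.lam e)

lemma minClock_le (ω : Env V) (k : Kind) (e : Sym2 V) : minClock ω e ≤ clock ω k e := by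
  cases k
  · exact min_le_left _ _
  · exact min_le_right _ _

/-- The sum of the smaller clocks along a list of pairs. -/
noncomputable def listTime (ω : Env V) (l : List (Sym2 V)) : ℝ := (l.map (minClock ω)).sum

/-- All clocks are positive. -/
def Pos (ω : Env V) : Prop := ∀ k e, 0 < clock ω k e

lemma Pos.minClock (h : Pos ω) (e : Sym2 V) : 0 < minClock ω e :=
  lt_min (h Kind.one e) (h Kind.lam e)

lemma Pos.listTime_nonneg (h : Pos ω) (l : List (Sym2 V)) : 0 ≤ listTime ω l := by
  unfold listTime
  apply List.sum_nonneg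
  intro x hx
  simp only [List.mem_map] at hx
  obtain ⟨e, _, rfl⟩ := hx
  exact (h.minClock e).le

/-- All long enough paths from `v` take time at least `c` times their length. -/
def Slow (G : SimpleGraph V) (ω : Env V) (c : ℝ) (v : V) : Prop :=
  ∃ N₀ : ℕ, ∀ u (p : G.Walk v u), p.IsPath → N₀ ≤ p.length → c * p.length ≤ listTime ω p.edges

/-- Every occupied vertex other than the origin was occupied through an attempt of a neighbour. -/
def HasParents (G : SimpleGraph V) (o : V) (ω : Env V) (T : V → ℝ≥0∞) (κ : V → Kind) : Prop :=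
  ∀ v, v ≠ o → T v ≠ ∞ → ∃ w, G.Adj w v ∧
    T v = T w + ENNReal.ofReal (clock ω (κ w) s(w, v)) ∧
    κ v = if ω.1 v = true then Kind.lam else κ w

lemma IsEvolution.hasParents (h : IsEvolution G o ω T κ) : HasParents G o ω T κ :=
  h.exists_attempt

/-- `p` is a piece of ancestral line of `v`. -/
structure Anc (G : SimpleGraph V) (ω : Env V) (T : V → ℝ≥0∞) (κ : V → Kind) {v u : V}
    (p : G.Walk v u) : Prop where
  isPath : p.IsPath
  time : T u + ENNReal.ofReal (listTime ω p.edges) ≤ T v
  ge : ∀ w ∈ p.support, T u ≤ T w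
  le : ∀ w ∈ p.support, T w ≤ T v
  kind : κ v = Kind.one → ∀ w ∈ p.support, κ w = Kind.one
  exact : ∃ F : Finset (Kind × Sym2 V),
    T v = T u + ENNReal.ofReal (∑ q ∈ F, clock ω q.1 q.2) ∧
    ∀ q ∈ F, ∀ x ∈ q.2, T u ≤ T x ∧ T x ≤ T v

lemma Anc.nil (v : V) : Anc G ω T κ (Walk.nil : G.Walk v v) where
  isPath := Walk.IsPath.nil
  time := by simp [listTime]
  ge := by simp
  le := by simp
  kind := by simp
  exact := ⟨∅, by simp, by simp⟩

lemma Anc.step (hpos : Pos ω) (h : HasParents G o ω T κ) {v u : V} {p : G.Walk v u}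
    (hp : Anc G ω T κ p) (hv : T v ≠ ∞) (huo : u ≠ o) :
    ∃ w, ∃ q : G.Walk v w, Anc G ω T κ q ∧ q.length = p.length + 1 := by
  have hu : T u ≠ ∞ := by
    have := hp.le u p.end_mem_support
    exact ne_top_of_le_ne_top hv this
  obtain ⟨w, hadj, hT, hk⟩ := h u huo hu
  have hc : 0 < clock ω (κ w) s(w, u) := hpos _ _
  have hw : T w ≠ ∞ := by
    intro hw
    rw [hw, top_add] at hT
    exact hu hT
  have hlt : T w < T u := by
    rw [hT]
    exact ENNReal.lt_add_right hw (by simpa using hc)
  have hnot : w ∉ p.support := by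
    intro hmem
    exact absurd (hp.ge w hmem) (not_le.mpr hlt)
  refine ⟨w, p.concat hadj.symm, ⟨?_, ?_, ?_, ?_, ?_, ?_⟩, ?_⟩
  · exact hp.isPath.concat hnot hadj.symm
  · rw [Walk.edges_concat]
    have h1 : listTime ω (p.edges.concat s(u, w)) = minClock ω s(w, u) + listTime ω p.edges := by
      unfold listTime
      simp [Sym2.eq_swap, add_comm]
    rw [h1, ENNReal.ofReal_add (hpos.minClock _).le (hpos.listTime_nonneg _), ← add_assoc]
    refine le_trans ?_ hp.time
    gcongr
    rw [hT]
    gcongr
    exact minClock_le _ _ _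
  · intro x hx
    rw [Walk.support_concat, List.mem_append, List.mem_singleton] at hx
    rcases hx with hx | hx
    · exact hlt.le.trans (hp.ge x hx)
    · rw [hx]
  · intro x hx
    rw [Walk.support_concat, List.mem_append, List.mem_singleton] at hx
    rcases hx with hx | hx
    · exact hp.le x hx
    · rw [hx]
      exact hlt.le.trans (hp.le u p.end_mem_support)
  · intro hone x hx
    rw [Walk.support_concat, List.mem_append, List.mem_singleton] at hx
    rcases hx with hx | hx
    · exact hp.kind hone x hx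
    · have hu1 := hp.kind hone u p.end_mem_support
      rw [hx]
      rw [hk] at hu1
      split_ifs at hu1 with hs
      exact hu1
  · classical
    obtain ⟨F, hF1, hF2⟩ := hp.exact
    have hnF : (κ w, s(w, u)) ∉ F := by
      intro hmem
      have := (hF2 _ hmem w (Sym2.mem_mk_left w u)).1
      exact absurd this (not_le.mpr hlt)
    refine ⟨insert (κ w, s(w, u)) F, ?_, ?_⟩
    · rw [Finset.sum_insert hnF, ENNReal.ofReal_add hc.le
        (Finset.sum_nonneg fun q _ => (hpos q.1 q.2).le), ← add_assoc, ← hT]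
      exact hF1
    · intro q hq x hx
      rw [Finset.mem_insert] at hq
      rcases hq with rfl | hq
      · simp only [Sym2.mem_iff] at hx
        rcases hx with rfl | rfl
        · exact ⟨le_rfl, hlt.le.trans (hp.le u p.end_mem_support)⟩
        · exact ⟨hlt.le, hp.le x p.end_mem_support⟩
      · exact ⟨hlt.le.trans (hF2 q hq x hx).1, (hF2 q hq x hx).2⟩
  · simp

/-- If all long paths from `v` are slow then `v` has an ancestral line reaching the origin. -/
lemma exists_anc (hpos : Pos ω) (h : HasParents G o ω T κ) {c : ℝ} (hc : 0 < c) {v : V}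
    (hslow : Slow G ω c v) (hv : T v ≠ ∞) : ∃ p : G.Walk v o, Anc G ω T κ p := by
  by_contra hcon
  have key : ∀ N : ℕ, ∃ u, ∃ p : G.Walk v u, Anc G ω T κ p ∧ p.length = N := by
    intro N
    induction N with
    | zero => exact ⟨v, Walk.nil, Anc.nil v, rfl⟩
    | succ N ih =>
      obtain ⟨u, p, hp, hl⟩ := ih
      by_cases huo : u = o
      · subst huo
        exact absurd ⟨p, hp⟩ hcon
      · obtain ⟨w, q, hq, hql⟩ := hp.step hpos h hv huo
        exact ⟨w, q, hq, by omega⟩
  obtain ⟨N₀, hN⟩ := hslow
  obtain ⟨N₁, hN₁⟩ := exists_nat_gt ((T v).toReal / c)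
  obtain ⟨u, p, hp, hl⟩ := key (max N₀ N₁)
  have h1 := hN u p hp.isPath (by omega)
  have h2 : ENNReal.ofReal (listTime ω p.edges) ≤ T v := le_trans le_add_self hp.time
  have h3 : listTime ω p.edges ≤ (T v).toReal := (ENNReal.ofReal_le_iff_le_toReal hv).mp h2
  have h4 : (N₁ : ℝ) ≤ p.length := by rw [hl]; exact_mod_cast le_max_right _ _
  have h5 : (T v).toReal < c * N₁ := by
    rw [div_lt_iff₀ hc] at hN₁
    linarith
  nlinarith

/-- Lower bound on occupation times. -/
lemma time_ge (hpos : Pos ω) (h : HasParents G o ω T κ) {c : ℝ} (hc : 0 < c) {v : V}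
    (hslow : Slow G ω c v) {N₀ : ℕ}
    (hN : ∀ u (p : G.Walk o u), p.IsPath → N₀ ≤ p.length → c * p.length ≤ listTime ω p.edges)
    (hd : N₀ ≤ G.dist o v) : ENNReal.ofReal (c * G.dist o v) ≤ T v := by
  by_cases hv : T v = ∞
  · rw [hv]; exact le_top
  obtain ⟨p, hp⟩ := exists_anc hpos h hc hslow hv
  have hlen : G.dist o v ≤ p.reverse.length := dist_le _
  have h1 := hN v p.reverse hp.isPath.reverse (hd.trans hlen)
  have h2 : listTime ω p.reverse.edges = listTime ω p.edges := by
    rw [Walk.edges_reverse]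
    unfold listTime
    rw [List.map_reverse, List.sum_reverse]
  have h3 : c * G.dist o v ≤ c * p.reverse.length := by
    have : (G.dist o v : ℝ) ≤ p.reverse.length := by exact_mod_cast hlen
    exact mul_le_mul_of_nonneg_left this hc.le
  calc ENNReal.ofReal (c * G.dist o v) ≤ ENNReal.ofReal (listTime ω p.edges) := by
        apply ENNReal.ofReal_le_ofReal
        linarith
    _ ≤ T v := le_trans le_add_self hp.time

end Pool.Agent.H97.HostileFPP
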