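import Pool.Agent.H97.HostileFPP.Det

/-!
# Existence of an evolution in every slow environment
-/

open scoped ENNReal
open SimpleGraph

namespace Pool.Agent.H97.HostileFPP

variable {V : Type} {G : SimpleGraph V} {o : V} {ω : Env V}

/-- The state of the exploration after finitely many steps. -/
structure St (G : SimpleGraph V) (o : V) (ω : Env V) where
  A : Finset V
  t : V → ℝ
  k : V → Kind
  ho : o ∈ A
  t_o : t o = 0
  k_o : k o = Kind.one
  nonneg : ∀ v ∈ A, 0 ≤ t v
  parent : ∀ v ∈ A, v ≠ o → ∃ w ∈ A, G.Adj w v ∧ t v = t w + clock ω (k w) s(w, v) ∧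
    k v = if ω.1 v = true then Kind.lam else k w
  le : ∀ v ∈ A, v ≠ o → ∀ w ∈ A, G.Adj w v → t v ≤ t w + clock ω (k w) s(w, v)
  bd : ∀ v ∈ A, ∀ u ∈ A, ∀ u', u' ∉ A → G.Adj u u' → t v ≤ t u + clock ω (k u) s(u, u')

/-- `S'` is obtained from `S` by adding one vertex. -/
def St.Ext (S S' : St G o ω) : Prop :=
  S.A ⊆ S'.A ∧ S'.A.card = S.A.card + 1 ∧ ∀ x ∈ S.A, S'.t x = S.t x ∧ S'.k x = S.k x

lemma exists_boundary (hconn : G.Connected) {A : Set V} {o : V} (ho : o ∈ A) {y : V} (hy : y ∉ A) :
    ∃ u u', u ∈ A ∧ u' ∉ A ∧ G.Adj u u' := by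
  obtain ⟨p⟩ := hconn.preconnected o y
  obtain ⟨d, _, h1, h2⟩ := p.exists_boundary_dart A ho hy
  exact ⟨d.fst, d.snd, h1, h2, d.adj⟩

lemma St.exists_ext [Infinite V] (hconn : G.Connected) (hloc : ∀ v, (G.neighborSet v).Finite)
    (hpos : Pos ω) (S : St G o ω) : ∃ S' : St G o ω, S.Ext S' := by
  classical
  -- boundary pairs
  set B : Set (V × V) := {q | q.1 ∈ S.A ∧ q.2 ∉ S.A ∧ G.Adj q.1 q.2} with hB
  have hfin : B.Finite := by
    have h1 : (⋃ u ∈ S.A, (fun w => (u, w)) '' G.neighborSet u).Finite := by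
      apply Set.Finite.biUnion S.A.finite_toSet
      intro u _
      exact (hloc u).image _
    apply h1.subset
    rintro ⟨u, u'⟩ ⟨h1, h2, h3⟩
    simp only [Set.mem_iUnion, Set.mem_image, exists_prop]
    exact ⟨u, h1, u', h3, rfl⟩
  have hne : B.Nonempty := by
    obtain ⟨y, hy⟩ := Infinite.exists_notMem_finset S.A
    obtain ⟨u, u', h1, h2, h3⟩ := exists_boundary hconn (A := (S.A : Set V)) (o := o)
      (by exact_mod_cast S.ho) (y := y) (by exact_mod_cast hy)
    exact ⟨(u, u'), by exact_mod_cast h1, by exact_mod_cast h2, h3⟩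
  obtain ⟨⟨u, v⟩, ⟨hu, hv, huv⟩, hmin⟩ := Set.exists_min_image B
    (fun q => S.t q.1 + clock ω (S.k q.1) s(q.1, q.2)) hfin hne
  simp only at hu hv huv
  have hmin' : ∀ x ∈ S.A, ∀ y, y ∉ S.A → G.Adj x y →
      S.t u + clock ω (S.k u) s(u, v) ≤ S.t x + clock ω (S.k x) s(x, y) := by
    intro x hx y hy hxy
    exact hmin (x, y) ⟨hx, hy, hxy⟩
  have hvo : v ≠ o := by rintro rfl; exact hv S.ho
  have hne_v : ∀ x ∈ S.A, x ≠ v := by rintro x hx rfl; exact hv hx
  set tv := S.t u + clock ω (S.k u) s(u, v) with htv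
  set kv : Kind := if ω.1 v = true then Kind.lam else S.k u with hkv
  refine ⟨⟨insert v S.A, Function.update S.t v tv, Function.update S.k v kv, ?_, ?_, ?_, ?_, ?_,
    ?_, ?_⟩, ?_, ?_, ?_⟩
  · exact Finset.mem_insert_of_mem S.ho
  · rw [Function.update_of_ne hvo.symm]; exact S.t_o
  · rw [Function.update_of_ne hvo.symm]; exact S.k_o
  · intro x hx
    rw [Finset.mem_insert] at hx
    rcases hx with rfl | hx
    · rw [Function.update_self]
      have := S.nonneg u hu
      have := hpos (S.k u) s(u, x)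
      linarith
    · rw [Function.update_of_ne (hne_v x hx)]
      exact S.nonneg x hx
  · intro x hx hxo
    rw [Finset.mem_insert] at hx
    rcases hx with rfl | hx
    · refine ⟨u, Finset.mem_insert_of_mem hu, huv, ?_, ?_⟩
      · rw [Function.update_self, Function.update_of_ne (hne_v u hu),
          Function.update_of_ne (hne_v u hu)]
      · rw [Function.update_self, Function.update_of_ne (hne_v u hu)]
    · obtain ⟨w, hw, h1, h2, h3⟩ := S.parent x hx hxo
      refine ⟨w, Finset.mem_insert_of_mem hw, h1, ?_, ?_⟩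
      · rw [Function.update_of_ne (hne_v x hx), Function.update_of_ne (hne_v w hw),
          Function.update_of_ne (hne_v w hw)]
        exact h2
      · rw [Function.update_of_ne (hne_v x hx), Function.update_of_ne (hne_v w hw)]
        exact h3
  · intro x hx hxo w hw hadj
    rw [Finset.mem_insert] at hx hw
    rcases hx with rfl | hx
    · rcases hw with rfl | hw
      · exact absurd hadj (G.loopless.irrefl _)
      · rw [Function.update_self, Function.update_of_ne (hne_v w hw),
          Function.update_of_ne (hne_v w hw)]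
        exact hmin' w hw x hv hadj
    · rcases hw with rfl | hw
      · rw [Function.update_self, Function.update_of_ne (hne_v x hx), Function.update_self]
        have h1 := S.bd x hx u hu w hv huv
        have h2 := hpos kv s(w, x)
        linarith
      · rw [Function.update_of_ne (hne_v x hx), Function.update_of_ne (hne_v w hw),
          Function.update_of_ne (hne_v w hw)]
        exact S.le x hx hxo w hw hadj
  · intro x hx y hy y' hy' hadj
    rw [Finset.mem_insert] at hx hy
    rw [Finset.mem_insert, not_or] at hy'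
    rcases hx with rfl | hx
    · rcases hy with rfl | hy
      · rw [Function.update_self, Function.update_self]
        have := hpos kv s(y, y')
        linarith
      · rw [Function.update_self, Function.update_of_ne (hne_v y hy),
          Function.update_of_ne (hne_v y hy)]
        exact hmin' y hy y' hy'.2 hadj
    · rcases hy with rfl | hy
      · rw [Function.update_self, Function.update_of_ne (hne_v x hx), Function.update_self]
        have h1 := S.bd x hx u hu y hv huv
        have h2 := hpos kv s(y, y')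
        linarith
      · rw [Function.update_of_ne (hne_v x hx), Function.update_of_ne (hne_v y hy),
          Function.update_of_ne (hne_v y hy)]
        exact S.bd x hx y hy y' hy'.2 hadj
  · exact Finset.subset_insert _ _
  · exact Finset.card_insert_of_notMem hv
  · intro x hx
    exact ⟨Function.update_of_ne (hne_v x hx) _ _, Function.update_of_ne (hne_v x hx) _ _⟩

/-- The initial state. -/
def St.start (G : SimpleGraph V) (o : V) (ω : Env V) (hpos : Pos ω) : St G o ω where
  A := {o}
  t := fun _ => 0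
  k := fun _ => Kind.one
  ho := by simp
  t_o := rfl
  k_o := rfl
  nonneg := by simp
  parent := by
    intro v hv hvo
    simp at hv
    exact absurd hv hvo
  le := by
    intro v hv hvo
    simp at hv
    exact absurd hv hvo
  bd := by
    intro v hv u hu u' hu' hadj
    have := hpos Kind.one s(u, u')
    linarith

/-- The sequence of states. -/
noncomputable def St.seq [Infinite V] (hconn : G.Connected) (hloc : ∀ v, (G.neighborSet v).Finite)
    (hpos : Pos ω) (o : V) : ℕ → St G o ω
  | 0 => St.start G o ω hpos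
  | n + 1 => (St.exists_ext hconn hloc hpos (St.seq hconn hloc hpos o n)).choose

section

variable [Infinite V] (hconn : G.Connected) (hloc : ∀ v, (G.neighborSet v).Finite)
    (hpos : Pos ω)

lemma St.seq_ext (n : ℕ) :
    (St.seq hconn hloc hpos o n).Ext (St.seq hconn hloc hpos o (n + 1)) :=
  (St.exists_ext hconn hloc hpos (St.seq hconn hloc hpos o n)).choose_spec

lemma St.seq_mono {m n : ℕ} (hmn : m ≤ n) :
    (St.seq hconn hloc hpos o m).A ⊆ (St.seq hconn hloc hpos o n).A ∧
      ∀ x ∈ (St.seq hconn hloc hpos o m).A,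
        (St.seq hconn hloc hpos o n).t x = (St.seq hconn hloc hpos o m).t x ∧
        (St.seq hconn hloc hpos o n).k x = (St.seq hconn hloc hpos o m).k x := by
  induction n, hmn using Nat.le_induction with
  | base => exact ⟨Finset.Subset.refl _, fun x _ => ⟨rfl, rfl⟩⟩
  | succ n hmn ih =>
    obtain ⟨h1, h2⟩ := ih
    obtain ⟨e1, e2, e3⟩ := St.seq_ext (o := o) hconn hloc hpos n
    refine ⟨h1.trans e1, fun x hx => ?_⟩
    obtain ⟨a1, a2⟩ := h2 x hx
    obtain ⟨b1, b2⟩ := e3 x (h1 hx)
    exact ⟨b1.trans a1, b2.trans a2⟩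

lemma St.seq_card (n : ℕ) : (St.seq hconn hloc hpos o n).A.card = n + 1 := by
  induction n with
  | zero => simp [St.seq, St.start]
  | succ n ih =>
    rw [(St.seq_ext (o := o) hconn hloc hpos n).2.1, ih]

include hconn hloc hpos in
/-- In a slow environment an evolution exists. -/
theorem exists_evolution (hball : ∀ n : ℕ, {v | G.dist o v ≤ n}.Finite) {c : ℝ} (hc : 0 < c)
    (hslow : ∀ v, Slow G ω c v) : ∃ T κ, IsEvolution G o ω T κ := by
  classical
  set σ := St.seq hconn hloc hpos o with hσ
  have mono : ∀ {m n : ℕ}, m ≤ n → (σ m).A ⊆ (σ n).A ∧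
      ∀ x ∈ (σ m).A, (σ n).t x = (σ m).t x ∧ (σ n).k x = (σ m).k x :=
    fun h => St.seq_mono hconn hloc hpos h
  -- the limiting functions
  let idx : V → ℕ := fun v => if h : ∃ n, v ∈ (σ n).A then Nat.find h else 0
  have hidx : ∀ v, (∃ n, v ∈ (σ n).A) → v ∈ (σ (idx v)).A := by
    intro v h
    simp only [idx, dif_pos h]
    exact Nat.find_spec h
  let t : V → ℝ := fun v => (σ (idx v)).t v
  let k : V → Kind := fun v => (σ (idx v)).k v
  have htk : ∀ n, ∀ v ∈ (σ n).A, (σ n).t v = t v ∧ (σ n).k v = k v := by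
    intro n v hv
    have hex : ∃ n, v ∈ (σ n).A := ⟨n, hv⟩
    have hle : idx v ≤ n := by
      simp only [idx, dif_pos hex]
      exact Nat.find_min' hex hv
    exact (mono hle).2 v (hidx v hex)
  have hto : t o = 0 := by
    rw [← (htk 0 o (σ 0).ho).1]; exact (σ 0).t_o
  have hko : k o = Kind.one := by
    rw [← (htk 0 o (σ 0).ho).2]; exact (σ 0).k_o
  have hnonneg : ∀ v, (∃ n, v ∈ (σ n).A) → 0 ≤ t v := by
    rintro v ⟨n, hn⟩
    rw [← (htk n v hn).1]
    exact (σ n).nonneg v hn
  -- parents
  have hparent : ∀ v, (∃ n, v ∈ (σ n).A) → v ≠ o → ∃ w, (∃ n, w ∈ (σ n).A) ∧ G.Adj w v ∧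
      t v = t w + clock ω (k w) s(w, v) ∧ k v = if ω.1 v = true then Kind.lam else k w := by
    rintro v ⟨n, hn⟩ hvo
    obtain ⟨w, hw, h1, h2, h3⟩ := (σ n).parent v hn hvo
    refine ⟨w, ⟨n, hw⟩, h1, ?_, ?_⟩
    · rw [← (htk n v hn).1, ← (htk n w hw).1, ← (htk n w hw).2]; exact h2
    · rw [← (htk n v hn).2, ← (htk n w hw).2]; exact h3
  -- every vertex is reached
  have hcover : ∀ v, ∃ n, v ∈ (σ n).A := by
    by_contra hcon
    push Not at hcon
    obtain ⟨y, hy⟩ := hcon
    obtain ⟨x, y', hx, hy', hadj⟩ := exists_boundary hconn (A := {v | ∃ n, v ∈ (σ n).A})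
      (o := o) ⟨0, (σ 0).ho⟩ (y := y) (by simpa using hy)
    obtain ⟨nx, hnx⟩ := hx
    simp only [Set.mem_ofPred_eq, not_exists] at hy'
    set Bd := t x + clock ω (k x) s(x, y') with hBd
    have hle : ∀ v, (∃ n, v ∈ (σ n).A) → t v ≤ Bd := by
      rintro v ⟨n, hn⟩
      have hv' : v ∈ (σ (max n nx)).A := (mono (le_max_left _ _)).1 hn
      have hx' : x ∈ (σ (max n nx)).A := (mono (le_max_right _ _)).1 hnx
      have := (σ (max n nx)).bd v hv' x hx' y' (hy' _) hadj
      rw [(htk _ v hv').1, (htk _ x hx').1, (htk _ x hx').2] at this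
      exact this
    -- partially defined evolution
    let T' : V → ℝ≥0∞ := fun v => if ∃ n, v ∈ (σ n).A then ENNReal.ofReal (t v) else ∞
    have hPar : HasParents G o ω T' k := by
      intro v hvo hTv
      have hv : ∃ n, v ∈ (σ n).A := by
        by_contra hcon
        exact hTv (if_neg hcon)
      obtain ⟨w, hw, h1, h2, h3⟩ := hparent v hv hvo
      refine ⟨w, h1, ?_, h3⟩
      simp only [T', if_pos hv, if_pos hw]
      rw [h2, ENNReal.ofReal_add (hnonneg w hw) (hpos _ _).le]
    obtain ⟨N₀, hN⟩ := hslow o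
    obtain ⟨N₁, hN₁⟩ := exists_nat_gt (Bd / c)
    have hsub : {v | ∃ n, v ∈ (σ n).A} ⊆ {v | G.dist o v ≤ max N₀ N₁} := by
      intro v hv
      simp only [Set.mem_ofPred_eq] at hv ⊢
      by_contra hgt
      push Not at hgt
      have h1 := time_ge hpos hPar hc (hslow v) hN (by omega)
      simp only [T', if_pos hv] at h1
      rw [ENNReal.ofReal_le_ofReal_iff (hnonneg v hv)] at h1
      have h2 := hle v hv
      have h3 : (N₁ : ℝ) ≤ G.dist o v := by
        have : N₁ ≤ G.dist o v := by omega
        exact_mod_cast this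
      rw [div_lt_iff₀ hc] at hN₁
      nlinarith
    have hfin : {v | ∃ n, v ∈ (σ n).A}.Finite := (hball _).subset hsub
    have h4 : (σ hfin.toFinset.card).A ⊆ hfin.toFinset := by
      intro v hv
      simp only [Set.Finite.mem_toFinset, Set.mem_ofPred_eq]
      exact ⟨_, hv⟩
    have h5 := Finset.card_le_card h4
    have h6 : (σ hfin.toFinset.card).A.card = hfin.toFinset.card + 1 :=
      St.seq_card hconn hloc hpos _
    omega
  refine ⟨fun v => ENNReal.ofReal (t v), k, ?_, hko, ?_, ?_⟩
  · simp [hto]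
  · intro v w hvo hadj
    obtain ⟨n, hn⟩ := hcover v
    obtain ⟨m, hm⟩ := hcover w
    have hv' : v ∈ (σ (max n m)).A := (mono (le_max_left _ _)).1 hn
    have hw' : w ∈ (σ (max n m)).A := (mono (le_max_right _ _)).1 hm
    have := (σ (max n m)).le v hv' hvo w hw' hadj
    rw [(htk _ v hv').1, (htk _ w hw').1, (htk _ w hw').2] at this
    rw [← ENNReal.ofReal_add (hnonneg w ⟨m, hm⟩) (hpos _ _).le]
    exact ENNReal.ofReal_le_ofReal this
  · intro v hvo _
    obtain ⟨w, hw, h1, h2, h3⟩ := hparent v (hcover v) hvo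
    refine ⟨w, h1, ?_, h3⟩
    rw [h2, ENNReal.ofReal_add (hnonneg w hw) (hpos _ _).le]

end

end Pool.Agent.H97.HostileFPP
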