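import Pool.Agent.H97.HostileFPP.Slow

/-!
# The graph: planes joined along a spine and along sparse far links
-/

open SimpleGraph
open scoped ENNReal

namespace Pool.Agent.H97.HostileFPP

/-- There is a vertical edge between `(n, x, 0)` and `(n + 1, x, 0)`. -/
def IsLink (n : ℕ) (x : ℤ) : Prop := x = 0 ∨ ∃ m : ℕ, n ≤ m ∧ x = 2 ^ m

/-- Countably many copies `{n} × ℤ × ℤ` of the square lattice. Two consecutive copies `n` and
`n + 1` are joined by the vertical edges between `(n, x, 0)` and `(n + 1, x, 0)`, where `x = 0` or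
`x = 2 ^ m` with `m ≥ n`. -/
def planes : SimpleGraph (ℕ × ℤ × ℤ) where
  Adj v w := (v.1 = w.1 ∧ |v.2.1 - w.2.1| + |v.2.2 - w.2.2| = 1) ∨
    (v.2 = w.2 ∧ v.2.2 = 0 ∧
      ((w.1 = v.1 + 1 ∧ IsLink v.1 v.2.1) ∨ (v.1 = w.1 + 1 ∧ IsLink w.1 v.2.1)))
  symm := by
    constructor
    rintro ⟨n, x, y⟩ ⟨n', x', y'⟩ h
    simp only [Prod.mk.injEq] at h ⊢
    rcases h with ⟨h1, h2⟩ | ⟨⟨h1, h2⟩, h3, h4⟩
    · left
      refine ⟨h1.symm, ?_⟩
      rw [abs_sub_comm x' x, abs_sub_comm y' y]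
      exact h2
    · right
      subst h1 h2
      exact ⟨⟨rfl, rfl⟩, h3, h4.symm⟩
  loopless := by
    constructor
    rintro ⟨n, x, y⟩ h
    simp at h

/-- A finite set containing all neighbours. -/
def nbr (v : ℕ × ℤ × ℤ) : Finset (ℕ × ℤ × ℤ) :=
  {(v.1 + 1, v.2), (v.1 - 1, v.2), (v.1, v.2.1 + 1, v.2.2), (v.1, v.2.1 - 1, v.2.2),
    (v.1, v.2.1, v.2.2 + 1), (v.1, v.2.1, v.2.2 - 1)}

lemma card_nbr (v : ℕ × ℤ × ℤ) : (nbr v).card ≤ 6 := Finset.card_le_six

lemma mem_nbr (v w : ℕ × ℤ × ℤ) (h : planes.Adj v w) : w ∈ nbr v := by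
  obtain ⟨n, x, y⟩ := v
  obtain ⟨n', x', y'⟩ := w
  simp only [planes, Prod.mk.injEq] at h
  simp only [nbr, Finset.mem_insert, Finset.mem_singleton, Prod.mk.injEq]
  rcases h with ⟨h1, h2⟩ | ⟨⟨h1, h2⟩, h3, h4⟩
  · subst h1
    have : (x' = x + 1 ∧ y' = y) ∨ (x' = x - 1 ∧ y' = y) ∨ (x' = x ∧ y' = y + 1) ∨
        (x' = x ∧ y' = y - 1) := by
      rcases abs_cases (x - x') with ⟨a, _⟩ | ⟨a, _⟩ <;>
      rcases abs_cases (y - y') with ⟨b, _⟩ | ⟨b, _⟩ <;> omega
    tauto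
  · subst h1 h2
    rcases h4 with ⟨h5, _⟩ | ⟨h5, _⟩
    · left; exact ⟨h5, rfl, rfl⟩
    · right; left; exact ⟨by omega, rfl, rfl⟩

lemma neighborSet_subset (v : ℕ × ℤ × ℤ) : planes.neighborSet v ⊆ nbr v :=
  fun w hw => mem_nbr v w hw

lemma neighborSet_finite (v : ℕ × ℤ × ℤ) : (planes.neighborSet v).Finite :=
  (nbr v).finite_toSet.subset (neighborSet_subset v)

lemma neighborSet_ncard (v : ℕ × ℤ × ℤ) : (planes.neighborSet v).ncard ≤ 6 := by
  have h := Set.ncard_le_ncard (neighborSet_subset v) (nbr v).finite_toSet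
  rw [Set.ncard_coe_finset] at h
  exact h.trans (card_nbr v)

/-- `ℓ¹` norm. -/
def nrm (v : ℕ × ℤ × ℤ) : ℤ := v.1 + |v.2.1| + |v.2.2|

lemma nrm_adj (v w : ℕ × ℤ × ℤ) (h : planes.Adj v w) : nrm w ≤ nrm v + 1 := by
  have := mem_nbr v w h
  obtain ⟨n, x, y⟩ := v
  obtain ⟨n', x', y'⟩ := w
  simp only [nbr, Finset.mem_insert, Finset.mem_singleton, Prod.mk.injEq] at this
  simp only [nrm]
  rcases abs_cases x with ⟨a, _⟩ | ⟨a, _⟩ <;>
  rcases abs_cases y with ⟨b, _⟩ | ⟨b, _⟩ <;>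
  rcases abs_cases x' with ⟨a', _⟩ | ⟨a', _⟩ <;>
  rcases abs_cases y' with ⟨b', _⟩ | ⟨b', _⟩ <;> omega

lemma nrm_walk {v w : ℕ × ℤ × ℤ} (p : planes.Walk v w) : nrm w ≤ nrm v + p.length := by
  induction p with
  | nil => simp
  | cons h p ih =>
    have := nrm_adj _ _ h
    rw [Walk.length_cons]
    push_cast
    omega

/-- Connection inside a set of vertices. -/
def Conn (P : Set (ℕ × ℤ × ℤ)) (u v : ℕ × ℤ × ℤ) : Prop :=
  ∃ (hu : u ∈ P) (hv : v ∈ P), (planes.induce P).Reachable ⟨u, hu⟩ ⟨v, hv⟩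

lemma Conn.symm {P : Set (ℕ × ℤ × ℤ)} {u v : ℕ × ℤ × ℤ} (h : Conn P u v) : Conn P v u := by
  obtain ⟨hu, hv, h⟩ := h
  exact ⟨hv, hu, h.symm⟩

lemma Conn.trans {P : Set (ℕ × ℤ × ℤ)} {u v w : ℕ × ℤ × ℤ} (h : Conn P u v) (h' : Conn P v w) :
    Conn P u w := by
  obtain ⟨hu, hv, h⟩ := h
  obtain ⟨hv', hw, h'⟩ := h'
  exact ⟨hu, hw, h.trans h'⟩

lemma Conn.refl {P : Set (ℕ × ℤ × ℤ)} {u : ℕ × ℤ × ℤ} (h : u ∈ P) : Conn P u u :=
  ⟨h, h, Reachable.refl _⟩

lemma Conn.of_adj {P : Set (ℕ × ℤ × ℤ)} {u v : ℕ × ℤ × ℤ} (hu : u ∈ P) (hv : v ∈ P)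
    (h : planes.Adj u v) : Conn P u v :=
  ⟨hu, hv, Adj.reachable (by simpa using h)⟩

lemma moveX_aux {P : Set (ℕ × ℤ × ℤ)} (n : ℕ) (y : ℤ) {a b : ℤ} (hab : a ≤ b)
    (hP : ∀ x, a ≤ x → x ≤ b → (n, x, y) ∈ P) : Conn P (n, a, y) (n, b, y) := by
  induction b, hab using Int.leInduction with
  | base => exact Conn.refl (hP a le_rfl le_rfl)
  | succ b hab ih =>
    refine (ih fun x hx hx' => hP x hx (by omega)).trans ?_
    refine Conn.of_adj (hP b hab (by omega)) (hP (b + 1) (by omega) le_rfl) ?_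
    left
    simp

lemma moveX {P : Set (ℕ × ℤ × ℤ)} (n : ℕ) (y : ℤ) (a b : ℤ)
    (hP : ∀ x, min a b ≤ x → x ≤ max a b → (n, x, y) ∈ P) : Conn P (n, a, y) (n, b, y) := by
  rcases le_total a b with h | h
  · rw [min_eq_left h, max_eq_right h] at hP
    exact moveX_aux n y h hP
  · rw [min_eq_right h, max_eq_left h] at hP
    exact (moveX_aux n y h hP).symm

lemma moveY_aux {P : Set (ℕ × ℤ × ℤ)} (n : ℕ) (x : ℤ) {a b : ℤ} (hab : a ≤ b)
    (hP : ∀ y, a ≤ y → y ≤ b → (n, x, y) ∈ P) : Conn P (n, x, a) (n, x, b) := by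
  induction b, hab using Int.leInduction with
  | base => exact Conn.refl (hP a le_rfl le_rfl)
  | succ b hab ih =>
    refine (ih fun x hx hx' => hP x hx (by omega)).trans ?_
    refine Conn.of_adj (hP b hab (by omega)) (hP (b + 1) (by omega) le_rfl) ?_
    left
    simp

lemma moveY {P : Set (ℕ × ℤ × ℤ)} (n : ℕ) (x : ℤ) (a b : ℤ)
    (hP : ∀ y, min a b ≤ y → y ≤ max a b → (n, x, y) ∈ P) : Conn P (n, x, a) (n, x, b) := by
  rcases le_total a b with h | h
  · rw [min_eq_left h, max_eq_right h] at hP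
    exact moveY_aux n x h hP
  · rw [min_eq_right h, max_eq_left h] at hP
    exact (moveY_aux n x h hP).symm

/-- Moving down a column of vertical edges. -/
lemma moveZ {P : Set (ℕ × ℤ × ℤ)} (n : ℕ) (x : ℤ) (hx : ∀ k < n, IsLink k x)
    (hP : ∀ k, k ≤ n → (k, x, 0) ∈ P) : Conn P (n, x, 0) (0, x, 0) := by
  induction n with
  | zero => exact Conn.refl (hP 0 le_rfl)
  | succ n ih =>
    refine Conn.trans ?_ (ih (fun k hk => hx k (by omega)) fun k hk => hP k (by omega))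
    refine Conn.of_adj (hP (n + 1) le_rfl) (hP n (by omega)) ?_
    right
    exact ⟨rfl, rfl, Or.inr ⟨rfl, hx n (by omega)⟩⟩

lemma planes_connected : planes.Connected := by
  have : Nonempty (ℕ × ℤ × ℤ) := ⟨(0, 0, 0)⟩
  have key : ∀ v : ℕ × ℤ × ℤ, planes.Reachable v (0, 0, 0) := by
    rintro ⟨n, x, y⟩
    have h : Conn Set.univ (n, x, y) (0, 0, 0) :=
      ((moveX n y x 0 fun _ _ _ => Set.mem_univ _).trans
        (moveY n 0 y 0 fun _ _ _ => Set.mem_univ _)).trans
        (moveZ n 0 (fun k _ => Or.inl rfl) fun _ _ => Set.mem_univ _)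
    obtain ⟨_, _, h⟩ := h
    exact h.map (Embedding.induce Set.univ).toHom
  exact ⟨fun u v => (key u).trans (key v).symm⟩

lemma nrm_le_dist (v : ℕ × ℤ × ℤ) : nrm v ≤ planes.dist (0, 0, 0) v := by
  obtain ⟨p, hp⟩ := planes_connected.exists_walk_length_eq_dist (0, 0, 0) v
  have := nrm_walk p
  rw [hp] at this
  simpa [nrm] using this

lemma ball_subset (n : ℕ) : {v | planes.dist (0, 0, 0) v ≤ n} ⊆
    ((Finset.range (n + 1) ×ˢ (Finset.Icc (-n : ℤ) n ×ˢ Finset.Icc (-n : ℤ) n) :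
      Finset (ℕ × ℤ × ℤ)) : Set (ℕ × ℤ × ℤ)) := by
  rintro ⟨m, x, y⟩ hv
  have h1 := nrm_le_dist (m, x, y)
  simp only [Set.mem_ofPred_eq] at hv
  have h2 : nrm (m, x, y) ≤ n := h1.trans (by exact_mod_cast hv)
  simp only [nrm] at h2
  simp only [Finset.coe_product, Set.mem_prod, Finset.mem_coe, Finset.mem_range, Finset.mem_Icc]
  have hx := neg_abs_le x
  have hx' := le_abs_self x
  have hy := neg_abs_le y
  have hy' := le_abs_self y
  have hax := abs_nonneg x
  have hay := abs_nonneg y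
  refine ⟨by omega, ⟨by omega, by omega⟩, by omega, by omega⟩

lemma ball_finite (n : ℕ) : {v | planes.dist (0, 0, 0) v ≤ n}.Finite :=
  (Finset.finite_toSet _).subset (ball_subset n)

lemma planes_growth : PolynomialGrowth planes (0, 0, 0) := by
  refine ⟨18, 3, fun n hn => ?_⟩
  have hset : {v | planes.Reachable (0, 0, 0) v ∧ planes.dist (0, 0, 0) v ≤ n} =
      {v | planes.dist (0, 0, 0) v ≤ n} := by
    ext v
    simp only [Set.mem_ofPred_eq, and_iff_right_iff_imp]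
    intro _
    exact planes_connected.preconnected _ _
  rw [hset]
  refine ⟨ball_finite n, ?_⟩
  have h1 := Set.ncard_le_ncard (ball_subset n) (Finset.finite_toSet _)
  rw [Set.ncard_coe_finset, Finset.card_product, Finset.card_product, Finset.card_range,
    Int.card_Icc] at h1
  have h2 : ((n : ℤ) + 1 - -n).toNat = 2 * n + 1 := by omega
  rw [h2] at h1
  have h3 : (n + 1) * ((2 * n + 1) * (2 * n + 1)) ≤ 18 * n ^ 3 := by
    have a : n + 1 ≤ 2 * n := by omega
    have b : 2 * n + 1 ≤ 3 * n := by omega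
    calc (n + 1) * ((2 * n + 1) * (2 * n + 1)) ≤ (2 * n) * ((3 * n) * (3 * n)) := by gcongr
      _ = 18 * n ^ 3 := by ring
  have h4 : (({v | planes.dist (0, 0, 0) v ≤ n}.ncard : ℕ) : ℝ) ≤ ((18 * n ^ 3 : ℕ) : ℝ) := by
    exact_mod_cast h1.trans h3
  have h5 : (n : ℝ) ^ (3 : ℝ) = (n : ℝ) ^ 3 := by
    rw [← Real.rpow_natCast]; norm_num
  rw [h5]
  push_cast at h4
  exact h4

/-- The isoperimetric inequality `|S| ≤ |∂S|²`. -/
lemma planes_isoperimetric (S : Finset (ℕ × ℤ × ℤ)) :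
    S.card ≤ (innerBoundary planes S).ncard ^ 2 := by
  classical
  have hfin : (innerBoundary planes S).Finite :=
    S.finite_toSet.subset fun v hv => hv.1
  set B := hfin.toFinset with hB
  have hBcard : (innerBoundary planes S).ncard = B.card := Set.ncard_eq_toFinset_card _ hfin
  -- first projection
  have h1 : S.image (fun v => (v.1, v.2.1)) ⊆ B.image (fun v => (v.1, v.2.1)) := by
    intro q hq
    rw [Finset.mem_image] at hq ⊢
    obtain ⟨⟨n, x, y⟩, hv, rfl⟩ := hq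
    -- the topmost vertex on the line
    set L := S.filter (fun v => v.1 = n ∧ v.2.1 = x) with hL
    have hne : L.Nonempty := ⟨(n, x, y), by simp [hL, hv]⟩
    obtain ⟨⟨n', x', y'⟩, hw, hmax⟩ := Finset.exists_max_image L (fun v => v.2.2) hne
    simp only [hL, Finset.mem_filter] at hw
    obtain ⟨hw1, rfl, rfl⟩ := hw
    refine ⟨(n', x', y'), ?_, rfl⟩
    simp only [hB, Set.Finite.mem_toFinset]
    refine ⟨by exact_mod_cast hw1, (n', x', y' + 1), ?_, ?_⟩
    · left; simp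
    · intro hmem
      have := hmax (n', x', y' + 1) (by
        simp only [hL, Finset.mem_filter]
        exact ⟨by exact_mod_cast hmem, by simp⟩)
      simp at this
  have h2 : S.image (fun v => (v.1, v.2.2)) ⊆ B.image (fun v => (v.1, v.2.2)) := by
    intro q hq
    rw [Finset.mem_image] at hq ⊢
    obtain ⟨⟨n, x, y⟩, hv, rfl⟩ := hq
    set L := S.filter (fun v => v.1 = n ∧ v.2.2 = y) with hL
    have hne : L.Nonempty := ⟨(n, x, y), by simp [hL, hv]⟩
    obtain ⟨⟨n', x', y'⟩, hw, hmax⟩ := Finset.exists_max_image L (fun v => v.2.1) hne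
    simp only [hL, Finset.mem_filter] at hw
    obtain ⟨hw1, rfl, rfl⟩ := hw
    refine ⟨(n', x', y'), ?_, rfl⟩
    simp only [hB, Set.Finite.mem_toFinset]
    refine ⟨by exact_mod_cast hw1, (n', x' + 1, y'), ?_, ?_⟩
    · left; simp
    · intro hmem
      have := hmax (n', x' + 1, y') (by
        simp only [hL, Finset.mem_filter]
        exact ⟨by exact_mod_cast hmem, by simp⟩)
      simp at this
  have h3 : (S.image (fun v => (v.1, v.2.1))).card ≤ B.card :=
    (Finset.card_le_card h1).trans Finset.card_image_le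
  have h4 : (S.image (fun v => (v.1, v.2.2))).card ≤ B.card :=
    (Finset.card_le_card h2).trans Finset.card_image_le
  have h5 : S.card ≤ (S.image (fun v => (v.1, v.2.1)) ×ˢ S.image (fun v => (v.1, v.2.2))).card := by
    apply Finset.card_le_card_of_injOn (fun v => ((v.1, v.2.1), (v.1, v.2.2)))
    · intro v hv
      simp only [Finset.coe_product, Set.mem_prod, Finset.coe_image, Set.mem_image, Finset.mem_coe]
      exact ⟨⟨v, hv, rfl⟩, ⟨v, hv, rfl⟩⟩
    · rintro ⟨n, x, y⟩ _ ⟨n', x', y'⟩ _ h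
      simp only [Prod.mk.injEq] at h
      obtain ⟨⟨rfl, rfl⟩, -, rfl⟩ := h
      rfl
  rw [Finset.card_product] at h5
  rw [hBcard, pow_two]
  exact h5.trans (Nat.mul_le_mul h3 h4)

lemma planes_isoDim : 2 ≤ isoDim planes := by
  have h : IsoperimetricInequality planes 2 := by
    refine ⟨1, one_pos, fun S _ => ?_⟩
    have h1 := planes_isoperimetric S
    rw [one_mul]
    have h2 : ((2 : ℝ) - 1) / 2 = 1 / 2 := by norm_num
    rw [h2, ← Real.sqrt_eq_rpow]
    apply Real.sqrt_le_iff.mpr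
    exact ⟨by positivity, by exact_mod_cast h1⟩
  have := le_iSup (fun d : {d : ℝ // 0 < d ∧ IsoperimetricInequality planes d} =>
    ENNReal.ofReal d.1) ⟨2, two_pos, h⟩
  simpa [isoDim] using this

lemma planes_oneEnded : OneEnded planes := by
  intro K
  -- a box containing `K`
  obtain ⟨r, hr⟩ : ∃ r : ℕ, ∀ v ∈ K, nrm v ≤ r := by
    refine ⟨(K.sup fun v => (nrm v).toNat), fun v hv => ?_⟩
    have h1 := Finset.le_sup (f := fun v => (nrm v).toNat) hv
    have h2 := Int.self_le_toNat (nrm v)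
    have h3 : ((nrm v).toNat : ℤ) ≤ ((K.sup fun v => (nrm v).toNat : ℕ) : ℤ) := by
      exact_mod_cast h1
    omega
  set P : Set (ℕ × ℤ × ℤ) := {v | v ∉ K} with hP
  have hout : ∀ n : ℕ, ∀ x y : ℤ, ((r : ℤ) < n ∨ (r : ℤ) < |x| ∨ (r : ℤ) < |y|) →
      (n, x, y) ∈ P := by
    intro n x y h hmem
    have := hr _ hmem
    simp only [nrm] at this
    have hax := abs_nonneg x
    have hay := abs_nonneg y
    omega
  have hbig : ∀ n : ℕ, ∃ m : ℕ, n ≤ m ∧ (r : ℤ) < 2 ^ m := by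
    intro n
    refine ⟨max n r, le_max_left _ _, ?_⟩
    have h1 : (r : ℤ) < 2 ^ r := by exact_mod_cast r.lt_two_pow_self
    have h2 : (2 : ℤ) ^ r ≤ 2 ^ (max n r) := pow_le_pow_right₀ (by norm_num) (le_max_right _ _)
    omega
  -- all vertices outside the box are connected to a reference vertex
  have key : ∀ n : ℕ, ∀ x y : ℤ, ((r : ℤ) < n ∨ (r : ℤ) < |x| ∨ (r : ℤ) < |y|) →
      Conn P (0, (r : ℤ) + 1, 0) (n, x, y) := by
    intro n x y h
    obtain ⟨m, hnm, hm⟩ := hbig n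
    have hrn : (0 : ℤ) ≤ r := by positivity
    -- from the link in plane `n` to the reference vertex
    have hA : Conn P (n, 2 ^ m, 0) (0, (r : ℤ) + 1, 0) := by
      refine (moveZ n (2 ^ m) (fun k hk => Or.inr ⟨m, by omega, rfl⟩) fun k _ => ?_).trans ?_
      · apply hout
        right; left
        exact hm.trans_le (le_abs_self _)
      · apply moveX
        intro z hz _
        apply hout
        right; left
        have : (r : ℤ) + 1 ≤ z := le_trans (by rw [le_min_iff]; omega) hz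
        exact lt_of_lt_of_le (by omega) (le_abs_self z)
    -- from the link column vertically inside the plane
    have hB : ∀ y', Conn P (n, 2 ^ m, y') (n, 2 ^ m, 0) := by
      intro y'
      apply moveY
      intro z _ _
      apply hout
      right; left
      exact hm.trans_le (le_abs_self _)
    refine Conn.symm (Conn.trans ?_ hA)
    rcases h with h | h | h
    · refine Conn.trans (moveX n y x (2 ^ m) ?_) (hB y)
      intro z _ _
      exact hout _ _ _ (Or.inl h)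
    · rcases abs_cases x with ⟨hx, _⟩ | ⟨hx, hx0⟩
      · refine Conn.trans (moveX n y x (2 ^ m) ?_) (hB y)
        intro z hz _
        apply hout
        right; left
        have : (r : ℤ) + 1 ≤ z := le_trans (by rw [le_min_iff]; omega) hz
        exact lt_of_lt_of_le (by omega) (le_abs_self z)
      · refine Conn.trans (moveY n x y ((r : ℤ) + 1) ?_)
          (Conn.trans (moveX n ((r : ℤ) + 1) x (2 ^ m) ?_) (hB _))
        · intro z _ _
          exact hout _ _ _ (Or.inr (Or.inl h))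
        · intro z _ _
          apply hout
          right; right
          exact lt_of_lt_of_le (by omega) (le_abs_self _)
    · refine Conn.trans (moveX n y x (2 ^ m) ?_) (hB y)
      intro z _ _
      exact hout _ _ _ (Or.inr (Or.inr h))
  have hu : ((0 : ℕ), (r : ℤ) + 1, (0 : ℤ)) ∈ P := by
    apply hout
    right; left
    exact lt_of_lt_of_le (by omega) (le_abs_self _)
  refine ⟨⟨_, hu⟩, ?_⟩
  have hboxfin : ((Finset.range (r + 1) ×ˢ (Finset.Icc (-r : ℤ) r ×ˢ Finset.Icc (-r : ℤ) r) :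
      Finset (ℕ × ℤ × ℤ)) : Set (ℕ × ℤ × ℤ)).Finite := Finset.finite_toSet _
  refine (hboxfin.preimage (f := (Subtype.val : {v // v ∉ K} → ℕ × ℤ × ℤ))
    Subtype.val_injective.injOn).subset ?_
  rintro ⟨⟨n, x, y⟩, hv⟩ hnot
  simp only [Set.mem_preimage, Finset.coe_product, Set.mem_prod, Finset.mem_coe,
    Finset.mem_range, Finset.mem_Icc]
  by_contra hcon
  apply hnot
  have hfar : (r : ℤ) < n ∨ (r : ℤ) < |x| ∨ (r : ℤ) < |y| := by
    by_contra h
    push Not at h
    obtain ⟨h1, h2, h3⟩ := h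
    rw [abs_le] at h2 h3
    exact hcon ⟨by omega, h2, h3⟩
  obtain ⟨_, _, hreach⟩ := key n x y hfar
  exact hreach

end Pool.Agent.H97.HostileFPP
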