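import Pool.Agent.H97.HostileFPP.Graph

/-!
# FPP_λ survives on `planes`
-/

open MeasureTheory ProbabilityTheory Filter Topology SimpleGraph
open scoped ENNReal

namespace Pool.Agent.H97.HostileFPP

/-- The spine. -/
def spine (n : ℕ) : ℕ × ℤ × ℤ := (n, 0, 0)

lemma spine_injective : Function.Injective spine := by
  intro a b h
  simpa [spine] using h

lemma spine_adj (n : ℕ) : planes.Adj (spine n) (spine (n + 1)) := by
  right
  exact ⟨rfl, rfl, Or.inl ⟨rfl, Or.inl rfl⟩⟩

/-- The spine edges. -/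
def spineEdge (n : ℕ) : Sym2 (ℕ × ℤ × ℤ) := s(spine n, spine (n + 1))

/-- Upper bound for the occupation times on the spine. -/
noncomputable def spineTime (ω : Env (ℕ × ℤ × ℤ)) (n : ℕ) : ℝ :=
  ∑ j ∈ Finset.range n, (clock ω Kind.one (spineEdge j) + clock ω Kind.lam (spineEdge j))

variable {ω : Env (ℕ × ℤ × ℤ)} {T : ℕ × ℤ × ℤ → ℝ≥0∞} {κ : ℕ × ℤ × ℤ → Kind}

lemma spineTime_nonneg (hpos : Pos ω) (n : ℕ) : 0 ≤ spineTime ω n :=
  Finset.sum_nonneg fun j _ => add_nonneg (hpos _ _).le (hpos _ _).le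

lemma time_spine_le (hpos : Pos ω) (h : IsEvolution planes (0, 0, 0) ω T κ) (n : ℕ) :
    T (spine n) ≤ ENNReal.ofReal (spineTime ω n) := by
  induction n with
  | zero =>
    have : T (spine 0) = 0 := h.time_origin
    rw [this]; exact bot_le
  | succ n ih =>
    have hne : spine (n + 1) ≠ (0, 0, 0) := by simp [spine]
    have h1 := h.time_le (spine (n + 1)) (spine n) hne (spine_adj n)
    refine h1.trans ?_
    have h2 : spineTime ω (n + 1) = spineTime ω n +
        (clock ω Kind.one (spineEdge n) + clock ω Kind.lam (spineEdge n)) := by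
      simp [spineTime, Finset.sum_range_succ]
    rw [h2, ENNReal.ofReal_add (spineTime_nonneg hpos n) (add_nonneg (hpos _ _).le (hpos _ _).le)]
    refine add_le_add ih (ENNReal.ofReal_le_ofReal ?_)
    have a1 := hpos Kind.one (spineEdge n)
    have a2 := hpos Kind.lam (spineEdge n)
    cases κ (spine n)
    · change clock ω Kind.one (spineEdge n) ≤ _; linarith
    · change clock ω Kind.lam (spineEdge n) ≤ _; linarith

lemma spineTime_growth (hpos : Pos ω)
    (hev : ∀ k : Kind, ∀ᶠ j : ℕ in atTop, clock ω k (spineEdge j) ≤ (j : ℝ)) :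
    ∃ K : ℝ, ∀ n : ℕ, spineTime ω n ≤ K + (n : ℝ) ^ 2 := by
  obtain ⟨J, hJ⟩ := eventually_atTop.mp ((hev Kind.one).and (hev Kind.lam))
  refine ⟨spineTime ω J, fun n => ?_⟩
  rcases le_total n J with h | h
  · have h1 : spineTime ω n ≤ spineTime ω J := by
      apply Finset.sum_le_sum_of_subset_of_nonneg
      · exact Finset.range_mono h
      · intro j _ _
        exact add_nonneg (hpos _ _).le (hpos _ _).le
    have : (0 : ℝ) ≤ (n : ℝ) ^ 2 := by positivity
    linarith
  · induction n, h using Nat.le_induction with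
    | base =>
      have : (0 : ℝ) ≤ (J : ℝ) ^ 2 := by positivity
      linarith
    | succ n hn ih =>
      have h2 : spineTime ω (n + 1) = spineTime ω n +
          (clock ω Kind.one (spineEdge n) + clock ω Kind.lam (spineEdge n)) := by
        simp [spineTime, Finset.sum_range_succ]
      obtain ⟨a, b⟩ := hJ n hn
      rw [h2]
      push_cast
      nlinarith

/-- The deterministic heart of the argument. -/
theorem survives_lam (hpos : Pos ω) {c : ℝ} (hc : 0 < c) (hslow : ∀ v, Slow planes ω c v)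
    (hev : ∀ k : Kind, ∀ᶠ j : ℕ in atTop, clock ω k (spineEdge j) ≤ (j : ℝ))
    (hseed : ∀ N : ℕ, ∃ n, N ≤ n ∧ ω.1 (spine n) = true)
    (h : IsEvolution planes (0, 0, 0) ω T κ) : Survives planes T κ Kind.lam := by
  obtain ⟨K, hK⟩ := spineTime_growth hpos hev
  obtain ⟨N₀, hN⟩ := hslow (0, 0, 0)
  have htop := h.time_ne_top planes_connected
  -- eventually `c 2 ^ m` is larger than the time bound
  have hlarge : ∀ᶠ m : ℕ in atTop, K + ((m + 1 : ℕ) : ℝ) ^ 2 < c * 2 ^ m := by
    have t1 : Tendsto (fun m : ℕ => (m : ℝ) ^ 2 / 2 ^ m) atTop (𝓝 0) :=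
      tendsto_pow_const_div_const_pow_of_one_lt 2 (by norm_num)
    have t2 : Tendsto (fun m : ℕ => K / 2 ^ m) atTop (𝓝 0) :=
      tendsto_const_nhds.div_atTop (tendsto_pow_atTop_atTop_of_one_lt (by norm_num))
    have t3 : Tendsto (fun m : ℕ => K / 2 ^ m + 2 * (((m + 1 : ℕ) : ℝ) ^ 2 / 2 ^ (m + 1)))
        atTop (𝓝 (0 + 2 * 0)) :=
      t2.add ((t1.comp (tendsto_add_atTop_nat 1)).const_mul 2)
    rw [mul_zero, add_zero] at t3
    filter_upwards [t3.eventually_lt_const hc] with m hm
    have h2 : (0 : ℝ) < 2 ^ m := by positivity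
    have h3 : K / 2 ^ m + 2 * (((m + 1 : ℕ) : ℝ) ^ 2 / 2 ^ (m + 1)) =
        (K + ((m + 1 : ℕ) : ℝ) ^ 2) / 2 ^ m := by
      rw [pow_succ]
      field_simp
      ring
    rw [h3, div_lt_iff₀ h2] at hm
    exact hm
  obtain ⟨M, hM⟩ := eventually_atTop.mp hlarge
  obtain ⟨n, hn, hsn⟩ := hseed (max (max M N₀) 1)
  have hnM : M ≤ n := le_trans (le_trans (le_max_left _ _) (le_max_left _ _)) hn
  have hnN : N₀ ≤ n := le_trans (le_trans (le_max_right _ _) (le_max_left _ _)) hn
  have hn1 : 1 ≤ n := le_trans (le_max_right _ _) hn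
  -- all later spine vertices are of type `lam`
  have hall : ∀ m, n ≤ m → κ (spine m) = Kind.lam := by
    intro m hm
    induction m, hm using Nat.le_induction with
    | base =>
      have hne : spine n ≠ (0, 0, 0) := by
        simp [spine]; omega
      obtain ⟨w, _, _, hk⟩ := h.exists_attempt (spine n) hne (htop _)
      rw [hk, if_pos hsn]
    | succ m hm ih =>
      by_contra hcon
      have hone : κ (spine (m + 1)) = Kind.one := by
        cases hk : κ (spine (m + 1))
        · rfl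
        · exact absurd hk hcon
      obtain ⟨p, hp⟩ := exists_anc hpos h.hasParents hc (hslow (spine (m + 1))) (htop _)
      obtain ⟨d, hd, hd1, hd2⟩ := p.exists_boundary_dart {v | m + 1 ≤ v.1}
        (by simp [spine]) (by simp)
      have hsupp : d.snd ∈ p.support := p.dart_snd_mem_support_of_mem_darts hd
      have hkd := hp.kind hone d.snd hsupp
      have hTd := hp.le d.snd hsupp
      have hadj := d.adj
      generalize hfst : d.fst = u at hadj hd1
      generalize hsnd : d.snd = w at hadj hd2 hkd hTd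
      obtain ⟨n1, x1, y1⟩ := u
      obtain ⟨n2, x2, y2⟩ := w
      simp only [Set.mem_ofPred_eq, not_le] at hd1 hd2
      simp only [planes, Prod.mk.injEq] at hadj
      rcases hadj with ⟨e1, _⟩ | ⟨⟨rfl, rfl⟩, rfl, hz⟩
      · omega
      rcases hz with ⟨e1, _⟩ | ⟨e1, hlink⟩
      · omega
      have hn2 : n2 = m := by omega
      subst hn2
      rcases hlink with rfl | ⟨j, hj, rfl⟩
      · have : κ (spine n2) = Kind.one := hkd
        rw [ih] at this
        exact absurd this (by simp)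
      · -- the far link is too far away
        have hdist : (2 : ℤ) ^ j ≤ planes.dist (0, 0, 0) (n2, 2 ^ j, 0) := by
          have h1 := nrm_le_dist (n2, 2 ^ j, 0)
          have h2 : (2 : ℤ) ^ j ≤ nrm (n2, 2 ^ j, 0) := by
            simp only [nrm]
            have := le_abs_self ((2 : ℤ) ^ j)
            have h0 : (0 : ℤ) ≤ (n2 : ℤ) := by positivity
            simp only [abs_zero]
            omega
          exact h2.trans h1
        have hdist' : 2 ^ j ≤ planes.dist (0, 0, 0) (n2, 2 ^ j, 0) := by exact_mod_cast hdist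
        have hjN : N₀ ≤ planes.dist (0, 0, 0) (n2, 2 ^ j, 0) := by
          have : j < 2 ^ j := j.lt_two_pow_self
          omega
        have ht := time_ge hpos h.hasParents hc (hslow _) hN hjN
        have h5 : ENNReal.ofReal (c * planes.dist (0, 0, 0) (n2, 2 ^ j, 0)) ≤
            ENNReal.ofReal (spineTime ω (n2 + 1)) :=
          (ht.trans hTd).trans (time_spine_le hpos h (n2 + 1))
        rw [ENNReal.ofReal_le_ofReal_iff (spineTime_nonneg hpos _)] at h5
        have h6 := hK (n2 + 1)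
        have h7 := hM n2 (by omega)
        have h8 : (2 : ℝ) ^ n2 ≤ planes.dist (0, 0, 0) (n2, 2 ^ j, 0) := by
          have a1 : (2 : ℝ) ^ n2 ≤ 2 ^ j := pow_le_pow_right₀ (by norm_num) hj
          have a2 : (2 : ℝ) ^ j ≤ planes.dist (0, 0, 0) (n2, 2 ^ j, 0) := by exact_mod_cast hdist'
          exact a1.trans a2
        have h9 : c * 2 ^ n2 ≤ c * planes.dist (0, 0, 0) (n2, 2 ^ j, 0) :=
          mul_le_mul_of_nonneg_left h8 hc.le
        linarith
  refine ⟨{v | ∃ m, n ≤ m ∧ v = spine m}, ?_, ?_, ?_⟩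
  · have : {v | ∃ m, n ≤ m ∧ v = spine m} = spine '' (Set.Ici n) := by
      ext v
      simp only [Set.mem_ofPred_eq, Set.mem_image, Set.mem_Ici]
      constructor
      · rintro ⟨m, hm, rfl⟩; exact ⟨m, hm, rfl⟩
      · rintro ⟨m, hm, rfl⟩; exact ⟨m, hm, rfl⟩
    rw [this]
    exact (Set.Ici_infinite n).image spine_injective.injOn
  · have hmem : ∀ m, n ≤ m → spine m ∈ {v | ∃ m, n ≤ m ∧ v = spine m} := fun m hm => ⟨m, hm, rfl⟩
    have : Nonempty {v | ∃ m, n ≤ m ∧ v = spine m} := ⟨⟨spine n, hmem n le_rfl⟩⟩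
    have key : ∀ m (hm : n ≤ m), (planes.induce {v | ∃ m, n ≤ m ∧ v = spine m}).Reachable
        ⟨spine n, hmem n le_rfl⟩ ⟨spine m, hmem m hm⟩ := by
      intro m hm
      induction m, hm using Nat.le_induction with
      | base => exact Reachable.refl _
      | succ m hm ih =>
        refine ih.trans (Adj.reachable ?_)
        simpa using spine_adj m
    refine ⟨?_⟩
    rintro ⟨_, m, hm, rfl⟩ ⟨_, m', hm', rfl⟩
    exact (key m hm).symm.trans (key m' hm')
  · rintro v ⟨m, hm, rfl⟩
    exact ⟨htop _, hall m hm⟩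

/-- The almost sure statement. -/
theorem ae_main {lam μ : ℝ} (h : 0 < lam) (h0 : 0 < μ) (h1 : μ < 1) :
    ∀ᵐ ω ∂envLaw (ℕ × ℤ × ℤ) lam μ,
      (∃! q : (ℕ × ℤ × ℤ → ℝ≥0∞) × (ℕ × ℤ × ℤ → Kind),
        IsEvolution planes (0, 0, 0) ω q.1 q.2) ∧
      ∀ T κ, IsEvolution planes (0, 0, 0) ω T κ → Survives planes T κ Kind.lam := by
  obtain ⟨c, hc, hslow⟩ := ae_slow (V := ℕ × ℤ × ℤ) h nbr card_nbr
  filter_upwards [ae_clocks h h0 h1 hslow, ae_clocks h h0 h1 (ae_pos h),
    ae_clocks h h0 h1 (ae_noTies h), ae_clocks h h0 h1 (ae_seq_le h spineEdge),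
    ae_seeds h h0 h1 (ae_seeds_frequently h0 h1 spine spine_injective)]
    with ω hω1 hω2 hω3 hω4 hω5
  have hpos : Pos ω := fun k e => hω2 (k, e)
  have hties : NoTies ω := fun F F' hFF => hω3 F F' hFF
  have hsl : ∀ v, Slow planes ω c v := fun v => slow_of_lists nbr mem_nbr (hω1 v)
  refine ⟨?_, fun T κ hT => survives_lam hpos hc hsl hω4 hω5 hT⟩
  obtain ⟨T, κ, hT⟩ := exists_evolution planes_connected neighborSet_finite hpos
    ball_finite hc hsl (o := (0, 0, 0))
  refine ⟨(T, κ), hT, ?_⟩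
  rintro ⟨T', κ'⟩ hT'
  obtain ⟨e1, e2⟩ := evolution_unique planes_connected ball_finite hpos hties hc hsl hT' hT
  simp only at e1 e2
  rw [e1, e2]

end Pool.Agent.H97.HostileFPP
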