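import Pool.Agent.H97.HostileFPP.Uniq

/-!
# Almost sure properties of the environment
-/

open MeasureTheory ProbabilityTheory Filter Topology
open scoped ENNReal

namespace Pool.Agent.H97.HostileFPP

variable {V : Type}

instance : Finite Kind := by
  apply Finite.of_surjective (fun b : Bool => if b then Kind.one else Kind.lam)
  intro k
  cases k
  · exact ⟨true, rfl⟩
  · exact ⟨false, rfl⟩

noncomputable instance : Fintype Kind := Fintype.ofFinite _

lemma card_kind : Fintype.card Kind ≤ 2 := by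
  have : Function.Surjective (fun b : Bool => if b then Kind.one else Kind.lam) := by
    intro k
    cases k
    · exact ⟨true, rfl⟩
    · exact ⟨false, rfl⟩
  have h := Fintype.card_le_of_surjective _ this
  simpa using h

lemma rate_pos {lam : ℝ} (h : 0 < lam) (k : Kind) : 0 < rate lam k := by
  cases k
  · exact one_pos
  · exact h

instance seedLaw_prob {μ : ℝ} [hμ : Fact (0 < μ ∧ μ < 1)] : IsProbabilityMeasure (seedLaw μ) := by
  constructor
  simp only [seedLaw, Measure.coe_add, Measure.coe_smul, Pi.add_apply, Pi.smul_apply,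
    measure_univ, smul_eq_mul, mul_one]
  rw [← ENNReal.ofReal_add hμ.out.1.le (by linarith [hμ.out.2])]
  simp

instance clockLaw_prob {lam : ℝ} [h : Fact (0 < lam)] (k : Kind) :
    IsProbabilityMeasure (expMeasure (rate lam k)) :=
  isProbabilityMeasure_expMeasure (rate_pos h.out k)

/-- the law of the clocks -/
noncomputable def clocksLaw (V : Type) (lam : ℝ) : Measure (Kind × Sym2 V → ℝ) :=
  Measure.infinitePi fun q : Kind × Sym2 V => expMeasure (rate lam q.1)

instance {lam : ℝ} [h : Fact (0 < lam)] : IsProbabilityMeasure (clocksLaw V lam) := by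
  unfold clocksLaw; infer_instance

lemma isProbabilityMeasure_envLaw {lam μ : ℝ} (h : 0 < lam) (h0 : 0 < μ) (h1 : μ < 1) :
    IsProbabilityMeasure (envLaw V lam μ) := by
  have : Fact (0 < lam) := ⟨h⟩
  have : Fact (0 < μ ∧ μ < 1) := ⟨h0, h1⟩
  unfold envLaw
  infer_instance

section exp

variable {r : ℝ}

lemma exp_Iic_zero (hr : 0 < r) : expMeasure r (Set.Iic 0) = 0 := by
  have := isProbabilityMeasure_expMeasure hr
  rw [← ofReal_cdf, cdf_expMeasure_eq hr]
  simp

lemma exp_Ioi (hr : 0 < r) {x : ℝ} (hx : 0 ≤ x) :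
    expMeasure r (Set.Ioi x) = ENNReal.ofReal (Real.exp (-(r * x))) := by
  have := isProbabilityMeasure_expMeasure hr
  have h1 : Set.Ioi x = (Set.Iic x)ᶜ := by simp
  rw [h1, prob_compl_eq_one_sub measurableSet_Iic, ← ofReal_cdf, cdf_expMeasure_eq hr, if_pos hx]
  rw [← ENNReal.ofReal_one, ← ENNReal.ofReal_sub]
  · congr 1; ring
  · have : Real.exp (-(r * x)) ≤ 1 := by
      rw [Real.exp_le_one_iff]
      have : 0 ≤ r * x := by positivity
      linarith
    linarith

instance : NullSingletonClass (expMeasure r) := by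
  unfold expMeasure gammaMeasure
  infer_instance

lemma exp_ae_pos (hr : 0 < r) : ∀ᵐ x ∂expMeasure r, 0 < x := by
  rw [ae_iff]
  convert exp_Iic_zero hr using 2
  ext x
  simp

/-- the Laplace transform tends to zero -/
lemma exp_laplace_tendsto (hr : 0 < r) :
    Tendsto (fun n : ℕ => ∫ x, Real.exp (-(n : ℝ) * x) ∂expMeasure r) atTop (𝓝 0) := by
  have := isProbabilityMeasure_expMeasure hr
  have h0 : (0 : ℝ) = ∫ _, (0 : ℝ) ∂expMeasure r := by simp
  rw [h0]
  apply tendsto_integral_of_dominated_convergence (fun _ => (1 : ℝ))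
  · intro n
    fun_prop
  · exact integrable_const _
  · intro n
    filter_upwards [exp_ae_pos hr] with x hx
    rw [Real.norm_eq_abs, Real.abs_exp, Real.exp_le_one_iff]
    have : 0 ≤ (n : ℝ) * x := by positivity
    linarith
  · filter_upwards [exp_ae_pos hr] with x hx
    have h1 : Tendsto (fun n : ℕ => (n : ℝ) * x) atTop atTop :=
      tendsto_natCast_atTop_atTop.atTop_mul_const hx
    have h2 := Real.tendsto_exp_neg_atTop_nhds_zero.comp h1
    refine h2.congr fun n => ?_
    simp [Function.comp]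

end exp

lemma ae_clocks {lam μ : ℝ} (h : 0 < lam) (h0 : 0 < μ) (h1 : μ < 1)
    {p : (Kind × Sym2 V → ℝ) → Prop} (hp : ∀ᵐ x ∂clocksLaw V lam, p x) :
    ∀ᵐ ω ∂envLaw V lam μ, p ω.2 := by
  have : Fact (0 < lam) := ⟨h⟩
  have : Fact (0 < μ ∧ μ < 1) := ⟨h0, h1⟩
  exact Measure.quasiMeasurePreserving_snd.ae hp

lemma ae_seeds {lam μ : ℝ} (h : 0 < lam) (h0 : 0 < μ) (h1 : μ < 1)
    {p : (V → Bool) → Prop} (hp : ∀ᵐ x ∂(Measure.infinitePi fun _ : V => seedLaw μ), p x) :
    ∀ᵐ ω ∂envLaw V lam μ, p ω.1 := by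
  have : Fact (0 < lam) := ⟨h⟩
  have : Fact (0 < μ ∧ μ < 1) := ⟨h0, h1⟩
  exact Measure.quasiMeasurePreserving_fst.ae hp

lemma clock_measurePreserving {lam : ℝ} (h : 0 < lam) (q : Kind × Sym2 V) :
    MeasurePreserving (fun x : Kind × Sym2 V → ℝ => x q) (clocksLaw V lam)
      (expMeasure (rate lam q.1)) := by
  have : Fact (0 < lam) := ⟨h⟩
  exact measurePreserving_eval_infinitePi (fun q : Kind × Sym2 V => expMeasure (rate lam q.1)) q

/-- Almost surely all clocks are positive. -/
lemma ae_pos [Countable V] {lam : ℝ} (h : 0 < lam) :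
    ∀ᵐ x ∂clocksLaw V lam, ∀ q, 0 < x q := by
  rw [ae_all_iff]
  intro q
  exact (clock_measurePreserving h q).quasiMeasurePreserving.ae (exp_ae_pos (rate_pos h q.1))

lemma indep_sum_ne_zero {Ω : Type} [MeasurableSpace Ω] {P : Measure Ω} [IsProbabilityMeasure P]
    {X Y : Ω → ℝ} (hX : Measurable X) (hY : Measurable Y) (hind : IndepFun X Y P)
    [NullSingletonClass (P.map Y)] : P {ω | X ω + Y ω = 0} = 0 := by
  have h1 := (indepFun_iff_map_prod_eq_prod_map_map hX.aemeasurable hY.aemeasurable).mp hind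
  have hmeas : MeasurableSet {p : ℝ × ℝ | p.1 + p.2 = 0} :=
    measurableSet_eq_fun (by fun_prop) (by fun_prop)
  have h2 : P {ω | X ω + Y ω = 0} =
      P.map (fun ω => (X ω, Y ω)) {p : ℝ × ℝ | p.1 + p.2 = 0} := by
    rw [Measure.map_apply (by fun_prop) hmeas]
    rfl
  have : IsProbabilityMeasure (P.map X) := Measure.isProbabilityMeasure_map hX.aemeasurable
  have : IsProbabilityMeasure (P.map Y) := Measure.isProbabilityMeasure_map hY.aemeasurable
  rw [h2, h1, Measure.prod_apply hmeas]
  have h3 : ∀ x : ℝ, (P.map Y) (Prod.mk x ⁻¹' {p : ℝ × ℝ | p.1 + p.2 = 0}) = 0 := by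
    intro x
    have : Prod.mk x ⁻¹' {p : ℝ × ℝ | p.1 + p.2 = 0} = {-x} := by
      ext y
      simp only [Set.mem_preimage, Set.mem_ofPred_eq, Set.mem_singleton_iff]
      constructor
      · intro h; linarith
      · intro h; linarith
    rw [this]
    exact measure_singleton _
  rw [lintegral_congr h3, lintegral_zero]

lemma ties_aux {lam : ℝ} (h : 0 < lam) (F F' : Finset (Kind × Sym2 V)) {q : Kind × Sym2 V}
    (hq : q ∈ F) (hq' : q ∉ F') :
    clocksLaw V lam {x | ∑ q ∈ F, x q = ∑ q ∈ F', x q} = 0 := by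
  classical
  have : Fact (0 < lam) := ⟨h⟩
  set a : Kind × Sym2 V → ℝ := fun i => (if i ∈ F then 1 else 0) - (if i ∈ F' then 1 else 0)
    with ha
  have haq : a q = 1 := by simp [ha, hq, hq']
  set f : Kind × Sym2 V → (Kind × Sym2 V → ℝ) → ℝ := fun i x => a i * x i with hf
  have hfm : ∀ i, Measurable (f i) := by
    intro i
    exact (measurable_pi_apply i).const_mul _
  have hind : iIndepFun f (clocksLaw V lam) :=
    iIndepFun_infinitePi (P := fun q : Kind × Sym2 V => expMeasure (rate lam q.1))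
      (X := fun i x => a i * x) (fun i => by fun_prop)
  have hind2 : IndepFun (∑ j ∈ (F ∪ F').erase q, f j) (f q) (clocksLaw V lam) :=
    hind.indepFun_finsetSum_of_notMem hfm (Finset.notMem_erase q _)
  have hfq : f q = fun x => x q := by
    funext x
    simp [hf, haq]
  have : NullSingletonClass ((clocksLaw V lam).map (f q)) := by
    rw [hfq, (clock_measurePreserving h q).map_eq]
    infer_instance
  have hmain := indep_sum_ne_zero (P := clocksLaw V lam)
    (X := ∑ j ∈ (F ∪ F').erase q, f j) (Y := f q)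
    (by
      have : Measurable fun x => ∑ j ∈ (F ∪ F').erase q, f j x :=
        Finset.measurable_sum _ fun i _ => hfm i
      convert this using 1
      ext x
      simp) (hfm q) hind2
  convert hmain using 2
  ext x
  have hq2 : q ∈ F ∪ F' := Finset.mem_union_left _ hq
  have h1 : (∑ j ∈ (F ∪ F').erase q, f j) x + f q x = ∑ j ∈ F ∪ F', f j x := by
    rw [Finset.sum_apply, Finset.sum_erase_add _ _ hq2]
  have h2 : ∑ j ∈ F ∪ F', f j x = ∑ q ∈ F, x q - ∑ q ∈ F', x q := by
    have : ∀ j, f j x = (if j ∈ F then x j else 0) - (if j ∈ F' then x j else 0) := by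
      intro j
      simp only [hf, ha]
      split_ifs <;> ring
    simp only [this, Finset.sum_sub_distrib, ← Finset.sum_filter]
    congr 1
    · congr 1
      ext j
      simp only [Finset.mem_filter, Finset.mem_union]
      tauto
    · congr 1
      ext j
      simp only [Finset.mem_filter, Finset.mem_union]
      tauto
  simp only [Set.mem_ofPred_eq]
  rw [h1, h2, sub_eq_zero]

/-- Almost surely there are no ties. -/
lemma ae_noTies [Countable V] {lam : ℝ} (h : 0 < lam) :
    ∀ᵐ x ∂clocksLaw V lam, ∀ F F' : Finset (Kind × Sym2 V),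
      ∑ q ∈ F, x q = ∑ q ∈ F', x q → F = F' := by
  classical
  have : Countable (Sym2 V) := inferInstanceAs (Countable (Quot _))
  rw [ae_all_iff]
  intro F
  rw [ae_all_iff]
  intro F'
  by_cases hFF : F = F'
  · exact Eventually.of_forall fun x _ => hFF
  have h1 : clocksLaw V lam {x | ∑ q ∈ F, x q = ∑ q ∈ F', x q} = 0 := by
    by_cases hsub : F ⊆ F'
    · have : ¬ F' ⊆ F := fun h' => hFF (Finset.Subset.antisymm hsub h')
      obtain ⟨q, hq, hq'⟩ := Finset.not_subset.mp this
      have := ties_aux h F' F hq hq'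
      convert this using 2
      ext x
      exact eq_comm
    · obtain ⟨q, hq, hq'⟩ := Finset.not_subset.mp hsub
      exact ties_aux h F F' hq hq'
  have h2 : ∀ᵐ x ∂clocksLaw V lam, ¬ (∑ q ∈ F, x q = ∑ q ∈ F', x q) := by
    rw [ae_iff]
    simpa using h1
  filter_upwards [h2] with x hx hx'
  exact absurd hx' hx

end Pool.Agent.H97.HostileFPP
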