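import Pool.Agent.H97.HostileFPP.Prob

/-!
# Linear lower bound for passage times, spine clocks and seeds
-/

open MeasureTheory ProbabilityTheory Filter Topology SimpleGraph
open scoped ENNReal

namespace Pool.Agent.H97.HostileFPP

variable {V : Type}

open Classical in
/-- All lists of typed pairs along walks of length `N` from `v`. -/
noncomputable def tLists (nbr : V → Finset V) : ℕ → V → Finset (List (Kind × Sym2 V))
  | 0, _ => {[]}
  | N + 1, v => (nbr v).biUnion fun w =>
      (Finset.univ : Finset Kind).biUnion fun k =>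
        (tLists nbr N w).image fun l => (k, s(v, w)) :: l

lemma card_tLists (nbr : V → Finset V) {Δ : ℕ} (hΔ : ∀ v, (nbr v).card ≤ Δ) (N : ℕ) (v : V) :
    (tLists nbr N v).card ≤ (2 * Δ) ^ N := by
  classical
  induction N generalizing v with
  | zero => simp [tLists]
  | succ N ih =>
    rw [tLists]
    calc _ ≤ ∑ w ∈ nbr v, 2 * (2 * Δ) ^ N := by
          refine Finset.card_biUnion_le.trans (Finset.sum_le_sum fun w _ => ?_)
          calc _ ≤ ∑ k : Kind, (2 * Δ) ^ N := by
                refine Finset.card_biUnion_le.trans (Finset.sum_le_sum fun k _ => ?_)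
                exact Finset.card_image_le.trans (ih w)
            _ = Fintype.card Kind * (2 * Δ) ^ N := by simp
            _ ≤ 2 * (2 * Δ) ^ N := Nat.mul_le_mul_right _ card_kind
      _ = (nbr v).card * (2 * (2 * Δ) ^ N) := by simp
      _ ≤ Δ * (2 * (2 * Δ) ^ N) := Nat.mul_le_mul_right _ (hΔ v)
      _ = (2 * Δ) ^ (N + 1) := by ring

lemma length_tLists (nbr : V → Finset V) (N : ℕ) (v : V) (l) (hl : l ∈ tLists nbr N v) :
    l.length = N := by
  classical
  induction N generalizing v l with
  | zero => simpa [tLists] using hl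
  | succ N ih =>
    rw [tLists] at hl
    simp only [Finset.mem_biUnion, Finset.mem_image] at hl
    obtain ⟨w, _, k, _, l', hl', rfl⟩ := hl
    simp [ih w l' hl']

lemma mem_tLists {G : SimpleGraph V} (nbr : V → Finset V) (hn : ∀ v w, G.Adj v w → w ∈ nbr v)
    (f : Sym2 V → Kind) {v u : V} (p : G.Walk v u) :
    p.edges.map (fun e => (f e, e)) ∈ tLists nbr p.length v := by
  classical
  induction p with
  | nil => simp [tLists]
  | cons h p ih =>
    rw [Walk.length_cons, tLists, Walk.edges_cons, List.map_cons]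
    simp only [Finset.mem_biUnion, Finset.mem_image]
    exact ⟨_, hn _ _ h, _, Finset.mem_univ _, _, ih, rfl⟩

/-- Chernoff bound for one list. -/
lemma chernoff {lam : ℝ} (h : 0 < lam) {φ c : ℝ} (n : ℕ)
    (hφ : ∀ k, ∫ x, Real.exp (-(n : ℝ) * x) ∂expMeasure (rate lam k) ≤ φ)
    (l : List (Kind × Sym2 V)) (hl : l.Nodup) :
    (clocksLaw V lam).real {x | (l.map x).sum ≤ c * l.length} ≤
      (Real.exp (n * c) * φ) ^ l.length := by
  classical
  have : Fact (0 < lam) := ⟨h⟩
  set X : Kind × Sym2 V → (Kind × Sym2 V → ℝ) → ℝ := fun q x => x q with hX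
  have hXm : ∀ q, Measurable (X q) := fun q => measurable_pi_apply q
  have hind : iIndepFun X (clocksLaw V lam) :=
    iIndepFun_infinitePi (P := fun q : Kind × Sym2 V => expMeasure (rate lam q.1))
      (X := fun i x => x) (fun i => measurable_id)
  have hsum : ∀ x : Kind × Sym2 V → ℝ, (l.map x).sum = (∑ q ∈ l.toFinset, X q) x := by
    intro x
    rw [Finset.sum_apply, List.sum_toFinset _ hl]
  have hmgf : ∀ q, mgf (X q) (clocksLaw V lam) (-(n : ℝ)) =
      ∫ x, Real.exp (-(n : ℝ) * x) ∂expMeasure (rate lam q.1) := by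
    intro q
    rw [← (clock_measurePreserving h q).map_eq, integral_map (hXm q).aemeasurable (by fun_prop)]
    rfl
  have hprod : mgf (∑ q ∈ l.toFinset, X q) (clocksLaw V lam) (-(n : ℝ)) ≤ φ ^ l.length := by
    rw [hind.mgf_sum hXm, ← List.toFinset_card_of_nodup hl]
    rw [← Finset.prod_const]
    apply Finset.prod_le_prod
    · intro q _
      exact mgf_nonneg
    · intro q _
      rw [hmgf]
      exact hφ q.1
  have hint : Integrable (fun x => Real.exp (-(n : ℝ) * (∑ q ∈ l.toFinset, X q) x))
      (clocksLaw V lam) := by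
    have hm : Measurable (∑ q ∈ l.toFinset, X q) := by
      have : Measurable fun x => ∑ j ∈ l.toFinset, X j x :=
        Finset.measurable_sum _ fun i _ => hXm i
      convert this using 1
      ext x
      simp
    refine Integrable.mono' (integrable_const (1 : ℝ)) (by fun_prop) ?_
    have hae : ∀ᵐ x ∂clocksLaw V lam, ∀ q ∈ l.toFinset, 0 < x q := by
      rw [eventually_all_finset]
      intro q _
      exact (clock_measurePreserving h q).quasiMeasurePreserving.ae (exp_ae_pos (rate_pos h q.1))
    filter_upwards [hae] with x hx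
    rw [Real.norm_eq_abs, Real.abs_exp, Real.exp_le_one_iff]
    have h1 : 0 ≤ (∑ q ∈ l.toFinset, X q) x := by
      rw [Finset.sum_apply]
      exact Finset.sum_nonneg fun q hq => (hx q hq).le
    have : 0 ≤ (n : ℝ) * (∑ q ∈ l.toFinset, X q) x := by positivity
    linarith
  have hch := measure_le_le_exp_mul_mgf (μ := clocksLaw V lam) (X := ∑ q ∈ l.toFinset, X q)
    (t := -(n : ℝ)) (c * l.length) (by simp) hint
  simp only [hsum]
  refine hch.trans ?_
  rw [mul_pow, ← Real.exp_nat_mul]
  have e1 : -(-(n : ℝ)) * (c * l.length) = (l.length : ℝ) * (n * c) := by ring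
  rw [e1]
  exact mul_le_mul_of_nonneg_left hprod (Real.exp_pos _).le

/-- For a graph of bounded degree, almost surely passage times grow at least linearly along
all paths. -/
theorem ae_slow [Countable V] {lam : ℝ} (h : 0 < lam) (nbr : V → Finset V) {Δ : ℕ}
    (hΔ : ∀ v, (nbr v).card ≤ Δ) :
    ∃ c : ℝ, 0 < c ∧ ∀ᵐ x ∂clocksLaw V lam, ∀ v, ∃ N₀ : ℕ, ∀ N ≥ N₀, ∀ l ∈ tLists nbr N v,
      l.Nodup → c * N ≤ (l.map x).sum := by
  classical
  have : Fact (0 < lam) := ⟨h⟩
  -- choose the parameter of the Laplace transform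
  have hε : (0 : ℝ) < 1 / (8 * (Δ + 1)) := by positivity
  have ht1 := (exp_laplace_tendsto (r := rate lam Kind.one) (rate_pos h _)).eventually_lt_const hε
  have ht2 := (exp_laplace_tendsto (r := rate lam Kind.lam) (rate_pos h _)).eventually_lt_const hε
  obtain ⟨n, hn1, hn2, hn0⟩ := (ht1.and (ht2.and (eventually_gt_atTop 0))).exists
  set φ : ℝ := 1 / (8 * (Δ + 1)) with hφdef
  have hφ : ∀ k, ∫ x, Real.exp (-(n : ℝ) * x) ∂expMeasure (rate lam k) ≤ φ := by
    intro k
    cases k
    · exact hn1.le
    · exact hn2.le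
  have hn0' : (0 : ℝ) < n := by exact_mod_cast hn0
  set c : ℝ := Real.log 2 / n with hc
  have hcpos : 0 < c := div_pos (Real.log_pos (by norm_num)) hn0'
  have hexp : Real.exp (n * c) = 2 := by
    rw [hc, mul_div_cancel₀ _ hn0'.ne', Real.exp_log (by norm_num)]
  refine ⟨c / 2, by positivity, ?_⟩
  rw [ae_all_iff]
  intro v
  -- bad events
  set E : ℕ → Set (Kind × Sym2 V → ℝ) := fun N =>
    ⋃ l ∈ (tLists nbr N v).filter (fun l => l.Nodup), {x | (l.map x).sum ≤ c * l.length} with hE
  have hEN : ∀ N, clocksLaw V lam (E N) ≤ ENNReal.ofReal ((1 / 2 : ℝ) ^ N) := by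
    intro N
    calc clocksLaw V lam (E N)
        ≤ ∑ l ∈ (tLists nbr N v).filter (fun l => l.Nodup),
            clocksLaw V lam {x | (l.map x).sum ≤ c * l.length} := measure_biUnion_finset_le _ _
      _ ≤ ∑ l ∈ (tLists nbr N v).filter (fun l => l.Nodup),
            ENNReal.ofReal ((2 * φ) ^ N) := by
          apply Finset.sum_le_sum
          intro l hl
          rw [Finset.mem_filter] at hl
          have h1 := chernoff (c := c) h n hφ l hl.2
          rw [hexp, length_tLists nbr N v l hl.1] at h1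
          rw [length_tLists nbr N v l hl.1, ← ofReal_measureReal]
          exact ENNReal.ofReal_le_ofReal h1
      _ = ((tLists nbr N v).filter (fun l => l.Nodup)).card • ENNReal.ofReal ((2 * φ) ^ N) := by
          rw [Finset.sum_const]
      _ ≤ ((2 * Δ) ^ N : ℕ) • ENNReal.ofReal ((2 * φ) ^ N) := by
          apply nsmul_le_nsmul_left (by positivity)
          exact (Finset.card_filter_le _ _).trans (card_tLists nbr hΔ N v)
      _ = ENNReal.ofReal (((2 * Δ) ^ N : ℕ) * (2 * φ) ^ N) := by
          rw [nsmul_eq_mul, ENNReal.ofReal_mul (by positivity), ENNReal.ofReal_natCast]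
      _ ≤ ENNReal.ofReal ((1 / 2 : ℝ) ^ N) := by
          apply ENNReal.ofReal_le_ofReal
          push_cast
          rw [← mul_pow]
          apply pow_le_pow_left₀ (by positivity)
          rw [hφdef]
          have hΔ0 : (0 : ℝ) ≤ Δ := by positivity
          rw [show 2 * (Δ : ℝ) * (2 * (1 / (8 * (Δ + 1)))) = (Δ : ℝ) / (2 * (Δ + 1)) by
            field_simp; ring]
          rw [div_le_div_iff₀ (by positivity) (by norm_num)]
          linarith
  have hsumE : ∑' N, clocksLaw V lam (E N) ≠ ∞ := by
    refine ne_top_of_le_ne_top ?_ (ENNReal.tsum_le_tsum hEN)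
    rw [← ENNReal.ofReal_tsum_of_nonneg (fun N => by positivity)
      (summable_geometric_of_lt_one (by norm_num) (by norm_num))]
    exact ENNReal.ofReal_ne_top
  filter_upwards [ae_eventually_notMem hsumE] with x hx
  obtain ⟨N₀, hN₀⟩ := eventually_atTop.mp hx
  refine ⟨N₀, fun N hN l hl hnd => ?_⟩
  have h1 := hN₀ N hN
  simp only [hE, Set.mem_iUnion, Finset.mem_filter, not_exists] at h1
  have h2 := h1 l ⟨hl, hnd⟩
  simp only [Set.mem_ofPred_eq, not_le, length_tLists nbr N v l hl] at h2
  have h3 : (0 : ℝ) ≤ c * N := by positivity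
  linarith

/-- From the list version to paths. -/
lemma slow_of_lists {G : SimpleGraph V} (nbr : V → Finset V) (hn : ∀ v w, G.Adj v w → w ∈ nbr v)
    {ω : Env V} {c : ℝ} {v : V}
    (hx : ∃ N₀ : ℕ, ∀ N ≥ N₀, ∀ l ∈ tLists nbr N v, l.Nodup → c * N ≤ (l.map ω.2).sum) :
    Slow G ω c v := by
  classical
  obtain ⟨N₀, hN⟩ := hx
  refine ⟨N₀, fun u p hp hlen => ?_⟩
  set f : Sym2 V → Kind := fun e =>
    if clock ω Kind.one e ≤ clock ω Kind.lam e then Kind.one else Kind.lam with hf
  have h1 := hN p.length hlen _ (mem_tLists nbr hn f p) ?_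
  · refine h1.trans (le_of_eq ?_)
    unfold listTime
    rw [List.map_map]
    congr 1
    apply List.map_congr_left
    intro e _
    simp only [Function.comp, hf, minClock, clock]
    split_ifs with hle
    · rw [min_eq_left hle]
    · rw [min_eq_right (not_le.mp hle).le]
  · exact hp.isTrail.edges_nodup.map (fun a b hab => congrArg Prod.snd hab)

/-- Clocks on a sequence of pairs are eventually at most linear. -/
lemma ae_seq_le {lam : ℝ} (h : 0 < lam) (e : ℕ → Sym2 V) :
    ∀ᵐ x ∂clocksLaw V lam, ∀ k : Kind, ∀ᶠ j : ℕ in atTop, (x (k, e j) : ℝ) ≤ (j : ℝ) := by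
  have : Fact (0 < lam) := ⟨h⟩
  rw [ae_all_iff]
  intro k
  have hr := rate_pos h k
  have hE : ∀ j : ℕ, clocksLaw V lam {x | (j : ℝ) < x (k, e j)} =
      ENNReal.ofReal (Real.exp (-(rate lam k * j))) := by
    intro j
    have h1 : {x : Kind × Sym2 V → ℝ | (j : ℝ) < x (k, e j)} =
      (fun x : Kind × Sym2 V → ℝ => x (k, e j)) ⁻¹' (Set.Ioi (j : ℝ)) := rfl
    rw [h1, (clock_measurePreserving h (k, e j)).measure_preimage
      measurableSet_Ioi.nullMeasurableSet, exp_Ioi hr (Nat.cast_nonneg j)]
  have hsum : ∑' j : ℕ, clocksLaw V lam {x | (j : ℝ) < x (k, e j)} ≠ ∞ := by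
    simp only [hE]
    rw [← ENNReal.ofReal_tsum_of_nonneg (fun N => by positivity)]
    · exact ENNReal.ofReal_ne_top
    · have : ∀ j : ℕ, Real.exp (-(rate lam k * j)) = (Real.exp (-(rate lam k))) ^ j := by
        intro j
        rw [← Real.exp_nat_mul]
        congr 1
        ring
      simp only [this]
      apply summable_geometric_of_lt_one (Real.exp_pos _).le
      rw [Real.exp_lt_one_iff]
      linarith
  filter_upwards [ae_eventually_notMem hsum] with x hx
  filter_upwards [hx] with j hj
  simpa using hj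

/-- Almost surely infinitely many of the vertices of a sequence carry seeds. -/
lemma ae_seeds_frequently {μ : ℝ} (h0 : 0 < μ) (h1 : μ < 1) (s : ℕ → V)
    (hs : Function.Injective s) :
    ∀ᵐ x ∂(Measure.infinitePi fun _ : V => seedLaw μ), ∀ N : ℕ, ∃ n, N ≤ n ∧ x (s n) = true := by
  classical
  have : Fact (0 < μ ∧ μ < 1) := ⟨h0, h1⟩
  rw [ae_all_iff]
  intro N
  rw [ae_iff]
  have hle : ∀ M : ℕ, (Measure.infinitePi fun _ : V => seedLaw μ)
      {x : V → Bool | ¬ ∃ n, N ≤ n ∧ x (s n) = true} ≤ (ENNReal.ofReal (1 - μ)) ^ M := by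
    intro M
    have hsub : {x : V → Bool | ¬ ∃ n, N ≤ n ∧ x (s n) = true} ⊆
        (((Finset.Ico N (N + M)).image s : Finset V) : Set V).pi (fun _ => {false}) := by
      intro x hx v hv
      simp only [Finset.coe_image, Set.mem_image, Finset.mem_coe, Finset.mem_Ico] at hv
      obtain ⟨n, ⟨hn1, _⟩, rfl⟩ := hv
      simp only [Set.mem_ofPred_eq, not_exists, not_and, Bool.not_eq_true] at hx
      simp [hx n hn1]
    refine (measure_mono hsub).trans ?_
    rw [Measure.infinitePi_pi _ (fun _ _ => measurableSet_singleton _)]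
    have hval : seedLaw μ {false} = ENNReal.ofReal (1 - μ) := by
      simp [seedLaw]
    rw [Finset.prod_const, hval, Finset.card_image_of_injective _ hs]
    simp
  have hlim : Tendsto (fun M : ℕ => (ENNReal.ofReal (1 - μ)) ^ M) atTop (𝓝 0) := by
    apply ENNReal.tendsto_pow_atTop_nhds_zero_of_lt_one
    rw [← ENNReal.ofReal_one]
    exact (ENNReal.ofReal_lt_ofReal_iff one_pos).mpr (by linarith)
  exact le_antisymm (ge_of_tendsto' hlim hle) bot_le

end Pool.Agent.H97.HostileFPP
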