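import Pool.Agent.H97.HostileFPP.Exist

/-!
# Uniqueness of the evolution in every slow environment without ties
-/

open scoped ENNReal
open SimpleGraph

namespace Pool.Agent.H97.HostileFPP

variable {V : Type} {G : SimpleGraph V} {o : V} {ω : Env V}

/-- Sums of clocks over different finite sets are different. -/
def NoTies (ω : Env V) : Prop :=
  ∀ F F' : Finset (Kind × Sym2 V), ∑ q ∈ F, clock ω q.1 q.2 = ∑ q ∈ F', clock ω q.1 q.2 → F = F'

lemma IsEvolution.time_ne_top (hconn : G.Connected) {T : V → ℝ≥0∞} {κ : V → Kind}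
    (h : IsEvolution G o ω T κ) (v : V) : T v ≠ ∞ := by
  by_contra hv
  obtain ⟨x, y, hx, hy, hadj⟩ := exists_boundary hconn (A := {v | T v ≠ ∞}) (o := o)
    (by simp [h.time_origin]) (y := v) (by simpa using hv)
  simp only [Set.mem_ofPred_eq, not_not] at hx hy
  have hyo : y ≠ o := by
    rintro rfl
    rw [h.time_origin] at hy
    exact ENNReal.zero_ne_top hy
  have h1 := h.time_le y x hyo hadj
  rw [hy, top_le_iff] at h1
  exact (ENNReal.add_ne_top.mpr ⟨hx, ENNReal.ofReal_ne_top⟩) h1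

/-- One half of the uniqueness argument. -/
lemma uniq_aux (hpos : Pos ω) (hties : NoTies ω) {c : ℝ} (hc : 0 < c)
    (hslow : ∀ v, Slow G ω c v) {T T' : V → ℝ≥0∞} {κ κ' : V → Kind}
    (h : IsEvolution G o ω T κ) (h' : IsEvolution G o ω T' κ')
    (hfin : ∀ v, T v ≠ ∞) (hfin' : ∀ v, T' v ≠ ∞) {v : V} (hle : T v ≤ T' v)
    (hmin : ∀ w, min (T w) (T' w) < min (T v) (T' v) → T w = T' w ∧ κ w = κ' w) :
    T v = T' v ∧ κ v = κ' v := by
  classical
  rw [min_eq_left hle] at hmin
  by_cases hvo : v = o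
  · subst hvo
    exact ⟨h.time_origin.trans h'.time_origin.symm, h.kind_origin.trans h'.kind_origin.symm⟩
  obtain ⟨w, hadj, hT, hk⟩ := h.exists_attempt v hvo (hfin v)
  obtain ⟨w', hadj', hT', hk'⟩ := h'.exists_attempt v hvo (hfin' v)
  have hc1 : 0 < clock ω (κ w) s(w, v) := hpos _ _
  have hc2 : 0 < clock ω (κ' w') s(w', v) := hpos _ _
  have hlt : T w < T v := by
    rw [hT]
    exact ENNReal.lt_add_right (hfin w) (by simpa using hc1)
  obtain ⟨e1, e2⟩ := hmin w (lt_of_le_of_lt (min_le_left _ _) hlt)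
  have hTT : T v = T' v := by
    apply le_antisymm hle
    have := h'.time_le v w hvo hadj
    rw [← e1, ← e2, ← hT] at this
    exact this
  refine ⟨hTT, ?_⟩
  have hlt' : T' w' < T v := by
    rw [hTT, hT']
    exact ENNReal.lt_add_right (hfin' w') (by simpa using hc2)
  obtain ⟨e1', e2'⟩ := hmin w' (lt_of_le_of_lt (min_le_right _ _) hlt')
  -- exact expressions for the times
  obtain ⟨p, hp⟩ := exists_anc hpos h.hasParents hc (hslow w) (hfin w)
  obtain ⟨F, hF1, hF2⟩ := hp.exact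
  obtain ⟨p', hp'⟩ := exists_anc hpos h'.hasParents hc (hslow w') (hfin' w')
  obtain ⟨F', hF1', hF2'⟩ := hp'.exact
  rw [h.time_origin, zero_add] at hF1
  rw [h'.time_origin, zero_add] at hF1'
  have hvF : ∀ q ∈ F, v ∉ q.2 := by
    intro q hq hv
    exact absurd (hF2 q hq v hv).2 (not_le.mpr hlt)
  have hvF' : ∀ q ∈ F', v ∉ q.2 := by
    intro q hq hv
    have := (hF2' q hq v hv).2
    rw [← hTT] at this
    exact absurd this (not_le.mpr hlt')
  have hn : (κ w, s(w, v)) ∉ F := fun hm => hvF _ hm (Sym2.mem_mk_right w v)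
  have hn' : (κ' w', s(w', v)) ∉ F' := fun hm => hvF' _ hm (Sym2.mem_mk_right w' v)
  have hs : 0 ≤ ∑ q ∈ F, clock ω q.1 q.2 := Finset.sum_nonneg fun q _ => (hpos q.1 q.2).le
  have hs' : 0 ≤ ∑ q ∈ F', clock ω q.1 q.2 := Finset.sum_nonneg fun q _ => (hpos q.1 q.2).le
  have hsum : ∑ q ∈ insert (κ w, s(w, v)) F, clock ω q.1 q.2 =
      ∑ q ∈ insert (κ' w', s(w', v)) F', clock ω q.1 q.2 := by
    rw [Finset.sum_insert hn, Finset.sum_insert hn']
    have : ENNReal.ofReal (clock ω (κ w) s(w, v) + ∑ q ∈ F, clock ω q.1 q.2) =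
        ENNReal.ofReal (clock ω (κ' w') s(w', v) + ∑ q ∈ F', clock ω q.1 q.2) := by
      rw [ENNReal.ofReal_add hc1.le hs, ENNReal.ofReal_add hc2.le hs', ← hF1, ← hF1', add_comm,
        ← hT, add_comm (ENNReal.ofReal _) (T' w'), ← hT', hTT]
    rwa [ENNReal.ofReal_eq_ofReal_iff (by positivity) (by positivity)] at this
  have hset := hties _ _ hsum
  have hmem : (κ w, s(w, v)) ∈ insert (κ' w', s(w', v)) F' := by
    rw [← hset]; exact Finset.mem_insert_self _ _
  rw [Finset.mem_insert] at hmem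
  rcases hmem with hmem | hmem
  · have h1 : κ w = κ' w' := congrArg Prod.fst hmem
    rw [hk, hk', h1]
  · exact absurd (Sym2.mem_mk_right w v) (hvF' _ hmem)

/-- Uniqueness of the evolution. -/
theorem evolution_unique (hconn : G.Connected) (hball : ∀ n : ℕ, {v | G.dist o v ≤ n}.Finite)
    (hpos : Pos ω) (hties : NoTies ω) {c : ℝ} (hc : 0 < c)
    (hslow : ∀ v, Slow G ω c v) {T T' : V → ℝ≥0∞} {κ κ' : V → Kind}
    (h : IsEvolution G o ω T κ) (h' : IsEvolution G o ω T' κ') : T = T' ∧ κ = κ' := by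
  have hfin := h.time_ne_top hconn
  have hfin' := h'.time_ne_top hconn
  suffices hall : ∀ v, T v = T' v ∧ κ v = κ' v from
    ⟨funext fun v => (hall v).1, funext fun v => (hall v).2⟩
  by_contra hcon
  push Not at hcon
  obtain ⟨v₀, hv₀⟩ := hcon
  set D : Set V := {v | ¬ (T v = T' v ∧ κ v = κ' v)} with hD
  have hv₀D : v₀ ∈ D := by
    simp only [hD, Set.mem_ofPred_eq, not_and]
    exact hv₀
  set f : V → ℝ≥0∞ := fun v => min (T v) (T' v) with hf
  -- finitely many vertices have small time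
  have hsmall : {v | f v ≤ f v₀}.Finite := by
    obtain ⟨N₀, hN⟩ := hslow o
    have hfv : f v₀ ≠ ∞ := ne_top_of_le_ne_top (hfin v₀) (min_le_left _ _)
    obtain ⟨N₁, hN₁⟩ := exists_nat_gt ((f v₀).toReal / c)
    apply (hball (max N₀ N₁)).subset
    intro v hv
    simp only [Set.mem_ofPred_eq] at hv ⊢
    by_contra hgt
    push Not at hgt
    have h1 := time_ge hpos h.hasParents hc (hslow v) hN (by omega)
    have h2 := time_ge hpos h'.hasParents hc (hslow v) hN (by omega)
    have h3 : ENNReal.ofReal (c * G.dist o v) ≤ f v₀ := (le_min h1 h2).trans hv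
    rw [ENNReal.ofReal_le_iff_le_toReal hfv] at h3
    have h4 : (N₁ : ℝ) ≤ G.dist o v := by
      have : N₁ ≤ G.dist o v := by omega
      exact_mod_cast this
    rw [div_lt_iff₀ hc] at hN₁
    nlinarith
  obtain ⟨v, ⟨hvD, hvle⟩, hvmin⟩ := Set.exists_min_image (D ∩ {v | f v ≤ f v₀}) f
    (hsmall.subset Set.inter_subset_right) ⟨v₀, hv₀D, le_refl (f v₀)⟩
  have hmin : ∀ w, f w < f v → T w = T' w ∧ κ w = κ' w := by
    intro w hw
    by_contra hwD
    have := hvmin w ⟨hwD, hw.le.trans hvle⟩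
    exact absurd this (not_le.mpr hw)
  rcases le_total (T v) (T' v) with hle | hle
  · exact hvD (uniq_aux hpos hties hc hslow h h' hfin hfin' hle hmin)
  · have := uniq_aux hpos hties hc hslow h' h hfin' hfin hle (fun w hw => by
      have hw' : f w < f v := by
        simp only [hf]
        rwa [min_comm (T w), min_comm (T v)]
      obtain ⟨a, b⟩ := hmin w hw'
      exact ⟨a.symm, b.symm⟩)
    exact hvD ⟨this.1.symm, this.2.symm⟩

end Pool.Agent.H97.HostileFPP
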